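import Pool.Agent.AECat.Super

/-!
# Local median orders and small oriented forests

A set of `n` vertices of an oriented tree can be placed in every set of `4 * n` vertices of a tournament.
-/

set_option autoImplicit false

namespace AECat

open Finset
open scoped Classical

section median

variable {V : Type*} {R : V → V → Prop}

/-- number of forward arcs -/
noncomputable def fwd (R : V → V → Prop) : List V → ℕ
  | [] => 0
  | v :: L => L.countP (fun u => decide (R v u)) + fwd R L

/-- number of arcs from the first list to the second one -/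
noncomputable def crs (R : V → V → Prop) (A B : List V) : ℕ :=
  (A.map (fun a => B.countP (fun u => decide (R a u)))).sum

theorem fwd_append (A B : List V) : fwd R (A ++ B) = fwd R A + fwd R B + crs R A B := by
  induction A with
  | nil => simp [fwd, crs]
  | cons a A ih =>
    simp only [List.cons_append, fwd, crs, List.countP_append, List.map_cons, List.sum_cons] at ih ⊢
    rw [ih]
    ring

theorem crs_cons_right (A C : List V) (v : V) :
    crs R A (v :: C) = A.countP (fun a => decide (R a v)) + crs R A C := by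
  induction A with
  | nil => simp [crs]
  | cons a A ih =>
    simp only [crs, List.map_cons, List.sum_cons, List.countP_cons] at ih ⊢
    rw [ih]
    ring

theorem exists_median (hT : AE32.Tour R) (X : Finset V) : ∃ L : List V, L.Nodup ∧ (∀ v, v ∈ L ↔ v ∈ X) ∧
    ∀ A v B C, L = A ++ v :: (B ++ C) → B.length ≤ 2 * B.countP (fun u => decide (R v u)) := by
  obtain ⟨L, hL, hmax⟩ := Finset.exists_max_image X.toList.permutations.toFinset (fwd R)
    ⟨X.toList, by rw [List.mem_toFinset, List.mem_permutations]⟩
  rw [List.mem_toFinset, List.mem_permutations] at hL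
  have hnd : L.Nodup := hL.nodup_iff.2 X.nodup_toList
  refine ⟨L, hnd, fun v => by rw [hL.mem_iff, Finset.mem_toList], ?_⟩
  rintro A v B C rfl
  have hperm : (A ++ (B ++ v :: C)).Perm (A ++ v :: (B ++ C)) := by
    apply List.Perm.append_left
    exact List.perm_middle
  have h1 := hmax (A ++ (B ++ v :: C)) (by
    rw [List.mem_toFinset, List.mem_permutations]
    exact hperm.trans hL)
  have hvB : v ∉ B := by
    intro hv
    have h2 := (List.nodup_append.1 hnd).2.1
    rw [List.nodup_cons] at h2
    exact h2.1 (List.mem_append_left _ hv)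
  have hc : crs R A (B ++ v :: C) = crs R A (v :: (B ++ C)) := by
    unfold crs
    congr 1
    apply List.map_congr_left
    intro a _
    exact List.Perm.countP_eq _ List.perm_middle
  have hlen : ∀ M : List V, v ∉ M → M.countP (fun a => decide (R a v)) + M.countP (fun u => decide (R v u)) =
      M.length := by
    intro M
    induction M with
    | nil => simp
    | cons m M ih =>
      intro hv
      rw [List.mem_cons, not_or] at hv
      have h3 := ih hv.2
      rw [List.countP_cons, List.countP_cons, List.length_cons]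
      rcases hT.tot m v (fun e => hv.1 e.symm) with h4 | h4
      · have h5 := hT.asym _ _ h4
        simp only [h4, h5, decide_true, decide_false, if_true, Bool.false_eq_true, if_false]
        omega
      · have h5 := hT.asym _ _ h4
        simp only [h4, h5, decide_true, decide_false, if_true, Bool.false_eq_true, if_false]
        omega
  have h6 := hlen B hvB
  rw [fwd_append, fwd_append, fwd_append, hc, crs_cons_right] at h1
  simp only [fwd, List.countP_append, fwd_append] at h1
  omega

/-- local median orders -/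
def Med (R : V → V → Prop) (X : Finset V) (v : ℕ → V) : Prop :=
  (∀ i < X.card, v i ∈ X) ∧ (∀ i j, i < X.card → j < X.card → v i = v j → i = j) ∧
    ∀ i j, i < j → j ≤ X.card → j - (i + 1) ≤ 2 * ((Ico (i + 1) j).filter (fun t => R (v i) (v t))).card

theorem exists_med [Nonempty V] (hT : AE32.Tour R) (X : Finset V) : ∃ v : ℕ → V, Med R X v := by
  obtain ⟨L, hnd, hmem, hmed⟩ := exists_median hT X
  have hlen : L.length = X.card := by
    have : L.toFinset = X := by
      ext v
      rw [List.mem_toFinset, hmem]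
    rw [← this, List.toFinset_card_of_nodup hnd]
  obtain ⟨v, hv⟩ : ∃ v : ℕ → V, v = fun i => L.getD i (Classical.arbitrary V) := ⟨_, rfl⟩
  have hv' : ∀ i (hi : i < L.length), v i = L[i] := by
    intro i hi
    rw [hv]
    exact List.getD_eq_getElem _ _ hi
  refine ⟨v, ?_, ?_, ?_⟩
  · intro i hi
    rw [← hmem, hv' i (by omega)]
    exact List.getElem_mem _
  · intro i j hi hj hij
    rw [hv' i (by omega), hv' j (by omega)] at hij
    exact (List.Nodup.getElem_inj_iff hnd).1 hij
  · intro i j hij hj
    have h1 : L = L.take i ++ v i :: ((L.drop (i + 1)).take (j - (i + 1)) ++ L.drop j) := by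
      have h2 : L.drop i = L[i]'(by omega) :: L.drop (i + 1) := List.drop_eq_getElem_cons (by omega)
      have h3 : L.drop (i + 1) = (L.drop (i + 1)).take (j - (i + 1)) ++ L.drop j := by
        have h4 := (List.take_append_drop (j - (i + 1)) (L.drop (i + 1))).symm
        rw [List.drop_drop] at h4
        have h5 : i + 1 + (j - (i + 1)) = j := by omega
        rw [h5] at h4
        exact h4
      rw [← h3, hv' i (by omega), ← h2, List.take_append_drop]
    have h2 := hmed _ _ _ _ h1
    have h3 : (L.drop (i + 1)).take (j - (i + 1)) = (List.range' (i + 1) (j - (i + 1))).map v := by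
      apply List.ext_getElem
      · rw [List.length_take, List.length_drop, List.length_map, List.length_range']
        omega
      · intro t ht1 ht2
        rw [List.length_map, List.length_range'] at ht2
        rw [List.getElem_take, List.getElem_drop, List.getElem_map, List.getElem_range', hv' _ (by omega)]
        congr 1
        omega
    rw [h3, List.length_map, List.length_range', List.countP_map] at h2
    have h4 : ((Ico (i + 1) j).filter (fun t => R (v i) (v t))).card =
        (List.range' (i + 1) (j - (i + 1))).countP ((fun u => decide (R (v i) u)) ∘ v) := by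
      rw [List.countP_eq_length_filter]
      rfl
    rw [h4]
    exact h2

/-- the state: `I` are the used indices, all of them less than `N`, and every final interval is only half used -/
def Sta (N : ℕ) (I : Finset ℕ) : Prop :=
  (∀ t ∈ I, t < N) ∧ ∀ p, 2 * (I.filter (fun t => p ≤ t)).card ≤ N - p + 1

theorem Sta.ins {N : ℕ} {I : Finset ℕ} (h : Sta N I) {w : ℕ} (hw : w < N + 2) :
    Sta (N + 2) (insert w I) := by
  refine ⟨?_, ?_⟩
  · intro t ht
    rw [mem_insert] at ht
    rcases ht with rfl | ht
    · exact hw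
    · have := h.1 t ht
      omega
  · intro p
    have h1 := h.2 p
    rw [Finset.filter_insert]
    by_cases hp : p ≤ w
    · rw [if_pos hp]
      have h2 := card_insert_le w (I.filter (fun t => p ≤ t))
      by_cases hpN : p ≤ N
      · omega
      · have h3 : I.filter (fun t => p ≤ t) = ∅ := by
          rw [filter_eq_empty_iff]
          intro t ht
          have := h.1 t ht
          omega
        rw [h3] at h2 ⊢
        rw [card_empty] at h2
        omega
    · rw [if_neg hp]
      omega

theorem Sta.leaf {X : Finset V} {v : ℕ → V} (hv : Med R X v) {N : ℕ} {I : Finset ℕ} (h : Sta N I)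
    (hN : N + 2 ≤ X.card) {z : ℕ} (hz : z ∈ I) : ∃ w, w ∉ I ∧ w < N + 2 ∧ R (v z) (v w) := by
  have h1 := h.1 z hz
  have h2 := hv.2.2 z (N + 2) (by omega) hN
  have h3 := h.2 (z + 1)
  obtain ⟨w, hw1, hw2⟩ := Finset.exists_mem_notMem_of_card_lt_card
    (s := I.filter (fun t => z + 1 ≤ t)) (t := (Ico (z + 1) (N + 2)).filter (fun t => R (v z) (v t))) (by omega)
  rw [mem_filter, mem_Ico] at hw1
  rw [mem_filter] at hw2
  exact ⟨w, fun hw => hw2 ⟨hw, hw1.1.1⟩, hw1.1.2, hw1.2⟩

theorem Sta.free {N : ℕ} {I : Finset ℕ} (h : Sta N I) : ∃ w, w ∉ I ∧ w < N + 2 := by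
  refine ⟨N, fun hN => ?_, by omega⟩
  exact lt_irrefl _ (h.1 N hN)

theorem Sta.many {n : ℕ} {Q : ℕ → Prop} {I₀ : Finset ℕ} (H : ∀ N' I', I₀ ⊆ I' → Sta N' I' → N' + 2 ≤ n →
    ∃ w, w ∉ I' ∧ w < N' + 2 ∧ Q w) (k : ℕ) : ∀ {N : ℕ} {I : Finset ℕ}, I₀ ⊆ I → Sta N I → N + 2 * k ≤ n →
      ∃ W : Finset ℕ, W.card = k ∧ Disjoint W I ∧ (∀ w ∈ W, Q w) ∧ Sta (N + 2 * k) (I ∪ W) := by
  induction k with
  | zero =>
    intro N I _ h _
    exact ⟨∅, rfl, disjoint_empty_left _, by simp, by simpa using h⟩
  | succ k ih =>
    intro N I hI h hn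
    obtain ⟨W, hW1, hW2, hW3, hW4⟩ := ih hI h (by omega)
    obtain ⟨w, hw1, hw2, hw3⟩ := H _ _ (hI.trans subset_union_left) hW4 (by omega)
    rw [mem_union, not_or] at hw1
    refine ⟨insert w W, ?_, ?_, ?_, ?_⟩
    · rw [card_insert_of_notMem hw1.2, hW1]
    · rw [disjoint_insert_left]
      exact ⟨hw1.1, hW2⟩
    · intro u hu
      rw [mem_insert] at hu
      rcases hu with rfl | hu
      · exact hw3
      · exact hW3 u hu
    · have h1 := hW4.ins hw2
      rw [union_insert]
      exact h1

end median

section forest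

variable {τ V : Type*} {E : τ → τ → Prop} {R : V → V → Prop}

/-- in a tree a vertex has only one neighbour which is nearer to the root -/
theorem parent_unique {G : SimpleGraph τ} (hG : G.IsTree) (r a b b' : τ) (hb : G.Adj a b)
    (hb' : G.Adj a b') (h : G.dist r a = G.dist r b + 1) (h' : G.dist r a = G.dist r b' + 1) : b = b' := by
  obtain ⟨p, hp, -⟩ := (hG.1.preconnected r a).exists_path_of_dist
  have key : ∀ c, G.Adj a c → G.dist r a = G.dist r c + 1 → c = p.penultimate := by
    intro c hc hd
    obtain ⟨q, hq, hql⟩ := (hG.1.preconnected r c).exists_path_of_dist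
    have ha : a ∉ q.support := by
      intro ha
      have h1 := SimpleGraph.dist_le (q.takeUntil a ha)
      have h2 := q.length_takeUntil_le_length ha
      omega
    exact hG.2.eq_penultimate_of_adj_end hp hc (hG.2.mem_support_of_ne_mem_support_of_adj_of_isPath hp hq hc ha)
  rw [key b hb h, key b' hb' h']

/-- Sets of vertices such that all the arcs between them go towards the root. -/
theorem emb_in (hanti : ∀ a b, E a b → ¬ E b a) (hG : (SimpleGraph.fromRel E).IsTree) (r : τ)
    {X : Finset V} {v : ℕ → V} (hv : Med (fun a b => R b a) X v) :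
    ∀ (m : ℕ) (D : Finset τ), D.card = m → (∀ a ∈ D, ∀ b ∈ D, E a b →
      (SimpleGraph.fromRel E).dist r a = (SimpleGraph.fromRel E).dist r b + 1) → 2 * m ≤ X.card →
      ∃ (f : τ → ℕ) (I : Finset ℕ), Sta (2 * m) I ∧ (∀ a ∈ D, f a ∈ I) ∧ (∀ a ∈ D, ∀ b ∈ D, f a = f b → a = b) ∧
        ∀ a ∈ D, ∀ b ∈ D, E a b → R (v (f a)) (v (f b)) := by
  intro m
  induction m with
  | zero =>
    intro D hD _ _
    rw [Finset.card_eq_zero] at hD
    subst hD
    exact ⟨fun _ => 0, ∅, ⟨by simp, by simp⟩, by simp, by simp, by simp⟩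
  | succ m ih =>
    intro D hD hup hX
    have hDne : D.Nonempty := by
      rw [← Finset.card_pos, hD]; omega
    obtain ⟨a, haD, ha⟩ := Finset.exists_max_image D (fun v => (SimpleGraph.fromRel E).dist r v) hDne
    have hD' : (D.erase a).card = m := by
      rw [card_erase_of_mem haD, hD]
      rfl
    obtain ⟨f, I, hI, hf1, hf2, hf3⟩ := ih (D.erase a) hD'
      (fun c hc d hd => hup c (mem_of_mem_erase hc) d (mem_of_mem_erase hd)) (by omega)
    have hadj : ∀ c ∈ D.erase a, (SimpleGraph.fromRel E).Adj a c →
        E a c ∧ (SimpleGraph.fromRel E).dist r a = (SimpleGraph.fromRel E).dist r c + 1 := by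
      intro c hc hac
      have h1 := ha c (mem_of_mem_erase hc)
      have h2 := hG.dist_eq_dist_add_one_of_adj r hac
      have h3 : (SimpleGraph.fromRel E).dist r a = (SimpleGraph.fromRel E).dist r c + 1 := by omega
      refine ⟨?_, h3⟩
      rcases hac.2 with h4 | h4
      · exact h4
      · have h5 := hup c (mem_of_mem_erase hc) a haD h4
        omega
    obtain ⟨w, hw1, hw2, hw3⟩ : ∃ w, w ∉ I ∧ w < 2 * m + 2 ∧ ∀ c ∈ D.erase a, (SimpleGraph.fromRel E).Adj a c →
        R (v w) (v (f c)) := by
      by_cases hnb : ∃ b ∈ D.erase a, (SimpleGraph.fromRel E).Adj a b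
      · obtain ⟨b, hb, hab⟩ := hnb
        obtain ⟨w, hw1, hw2, hw3⟩ := hI.leaf hv (by omega) (hf1 b hb)
        refine ⟨w, hw1, hw2, ?_⟩
        intro c hc hac
        rw [parent_unique hG r a c b hac hab (hadj c hc hac).2 (hadj b hb hab).2]
        exact hw3
      · obtain ⟨w, hw1, hw2⟩ := hI.free
        exact ⟨w, hw1, hw2, fun c hc hac => absurd ⟨c, hc, hac⟩ hnb⟩
    have hfa : ∀ c ∈ D.erase a, f c ≠ w := fun c hc e => hw1 (e ▸ hf1 c hc)
    refine ⟨fun c => if c = a then w else f c, Insert.insert w I, hI.ins hw2, ?_, ?_, ?_⟩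
    · intro c hc
      by_cases h : c = a
      · simp only [h, if_true]
        exact mem_insert_self _ _
      · simp only [h, if_false]
        exact mem_insert_of_mem (hf1 c (mem_erase.2 ⟨h, hc⟩))
    · intro c hc d hd hcd
      by_cases h : c = a
      · by_cases h' : d = a
        · rw [h, h']
        · simp only [h, h', if_true, if_false] at hcd
          exact absurd hcd.symm (hfa d (mem_erase.2 ⟨h', hd⟩))
      · by_cases h' : d = a
        · simp only [h, h', if_true, if_false] at hcd
          exact absurd hcd (hfa c (mem_erase.2 ⟨h, hc⟩))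
        · simp only [h, h', if_false] at hcd
          exact hf2 c (mem_erase.2 ⟨h, hc⟩) d (mem_erase.2 ⟨h', hd⟩) hcd
    · intro c hc d hd hcd
      by_cases h : c = a
      · by_cases h' : d = a
        · subst h; subst h'; exact absurd hcd (hanti _ _ hcd)
        · simp only [h, h', if_true, if_false]
          subst h
          exact hw3 d (mem_erase.2 ⟨h', hd⟩) ⟨fun e => h' e.symm, Or.inl hcd⟩
      · by_cases h' : d = a
        · subst h'
          have h1 := hadj c (mem_erase.2 ⟨h, hc⟩) ⟨fun e => h e.symm, Or.inr hcd⟩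
          exact absurd hcd (hanti _ _ h1.1)
        · simp only [h, h', if_false]
          exact hf3 c (mem_erase.2 ⟨h, hc⟩) d (mem_erase.2 ⟨h', hd⟩) hcd

/-- **Small oriented forests**: a set of `n` vertices of an oriented tree can be placed in every set of `4 * n` vertices
of a tournament. -/
theorem emb_ord [Nonempty V] (hT : AE32.Tour R) (hanti : ∀ a b, E a b → ¬ E b a)
    (hG : (SimpleGraph.fromRel E).IsTree) (r : τ) {X : Finset V} {v : ℕ → V} (hv : Med R X v) :
    ∀ (n : ℕ) (B : Finset τ), B.card = n → 4 * n ≤ X.card →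
      ∃ (f : τ → ℕ) (I : Finset ℕ), Sta (4 * n) I ∧ (∀ a ∈ B, f a ∈ I) ∧ (∀ a ∈ B, ∀ b ∈ B, f a = f b → a = b) ∧
        ∀ a ∈ B, ∀ b ∈ B, E a b → R (v (f a)) (v (f b)) := by
  intro n
  induction n using Nat.strong_induction_on with
  | _ n ih =>
    intro B hB hX
    rcases Nat.eq_zero_or_pos n with hn | hn
    · subst hn
      rw [Finset.card_eq_zero] at hB
      subst hB
      exact ⟨fun _ => 0, ∅, ⟨by simp, by simp⟩, by simp, by simp, by simp⟩
    set G := SimpleGraph.fromRel E with hGdef
    -- the arcs towards the root inside `B`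
    obtain ⟨tied, htied⟩ : ∃ tied : τ → τ → Prop, tied = fun a p => a ∈ B ∧ p ∈ B ∧ E a p ∧ G.dist r a = G.dist r p + 1 :=
      ⟨_, rfl⟩
    have htadj : ∀ {a b}, E a b → G.Adj a b := by
      intro a b hab
      exact ⟨fun e => by subst e; exact hanti _ _ hab hab, Or.inl hab⟩
    obtain ⟨Rt, hRt⟩ : ∃ Rt : Finset τ, Rt = B.filter (fun x => ∀ p, ¬ tied x p) := ⟨_, rfl⟩
    have hRtne : Rt.Nonempty := by
      obtain ⟨x, hxB, hx⟩ := Finset.exists_min_image B (fun v => G.dist r v) (by rw [← Finset.card_pos, hB]; exact hn)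
      refine ⟨x, ?_⟩
      rw [hRt, mem_filter]
      refine ⟨hxB, ?_⟩
      intro p hp
      rw [htied] at hp
      have h1 := hx p hp.2.1
      have h2 := hp.2.2.2
      omega
    obtain ⟨x, hx, hxmax⟩ := Finset.exists_max_image Rt (fun v => G.dist r v) hRtne
    have hx' := hx
    rw [hRt, mem_filter] at hx'
    obtain ⟨hxB, hxt⟩ := hx'
    have hroot : ∀ a ∈ B, (∀ p, ¬ tied a p) → G.dist r a ≤ G.dist r x := by
      intro a ha hap
      exact hxmax a (by rw [hRt, mem_filter]; exact ⟨ha, hap⟩)
    obtain ⟨D, hD⟩ : ∃ D : Finset τ, D = B.filter (fun a => Relation.ReflTransGen tied a x) := ⟨_, rfl⟩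
    have hmD : ∀ {a}, a ∈ D ↔ a ∈ B ∧ Relation.ReflTransGen tied a x := by
      intro a
      rw [hD, mem_filter]
    have hDB : D ⊆ B := fun a ha => (hmD.1 ha).1
    have hxD : x ∈ D := hmD.2 ⟨hxB, Relation.ReflTransGen.refl⟩
    have hdD : ∀ a ∈ D, G.dist r x ≤ G.dist r a := by
      intro a ha
      have h1 := (hmD.1 ha).2
      clear ha
      induction h1 using Relation.ReflTransGen.head_induction_on with
      | refl => exact le_rfl
      | head h2 _ ih2 =>
        rw [htied] at h2
        have h3 := h2.2.2.2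
        omega
    have hDt : ∀ a ∈ D, a ≠ x → ∃ p ∈ D, tied a p := by
      intro a ha hne
      rcases Relation.ReflTransGen.cases_head (hmD.1 ha).2 with h1 | ⟨p, h1, h2⟩
      · exact absurd h1 hne
      · refine ⟨p, hmD.2 ⟨?_, h2⟩, h1⟩
        rw [htied] at h1
        exact h1.2.1
    have huniq : ∀ {a p p'}, tied a p → G.Adj a p' → G.dist r a = G.dist r p' + 1 → p' = p := by
      intro a p p' h1 h2 h3
      rw [htied] at h1
      exact parent_unique hG r a p' p h2 (htadj h1.2.2.1) h3 h1.2.2.2
    have hclosed : ∀ {a p}, tied a p → p ∈ D → a ∈ D := by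
      intro a p h1 h2
      have h3 := h1
      rw [htied] at h3
      exact hmD.2 ⟨h3.1, Relation.ReflTransGen.head h1 (hmD.1 h2).2⟩
    -- arcs inside `D` go towards the root
    have hup : ∀ a ∈ D, ∀ b ∈ D, E a b → G.dist r a = G.dist r b + 1 := by
      intro a ha b hb hab
      rcases hG.dist_eq_dist_add_one_of_adj r (htadj hab) with h1 | h1
      · exact h1
      · exfalso
        by_cases hbx : b = x
        · have h2 := hdD a ha
          rw [hbx] at h1
          omega
        · obtain ⟨p, -, hp⟩ := hDt b hb hbx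
          have h2 := huniq hp (htadj hab).symm h1
          rw [htied] at hp
          rw [← h2] at hp
          exact hanti _ _ hab hp.2.2.1
    -- no arc from `D` to the rest
    have hout : ∀ a ∈ D, ∀ b ∈ B, b ∉ D → ¬ E a b := by
      intro a ha b hb hbD hab
      rcases hG.dist_eq_dist_add_one_of_adj r (htadj hab) with h1 | h1
      · have h2 : tied a b := by
          rw [htied]
          exact ⟨hDB ha, hb, hab, h1⟩
        by_cases hax : a = x
        · exact hxt b (hax ▸ h2)
        · obtain ⟨p, hpD, hp⟩ := hDt a ha hax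
          rw [huniq hp (htadj hab) h1] at hbD
          exact hbD hpD
      · have h2 : ∀ p, ¬ tied b p := by
          intro p hp
          have h3 := huniq hp (htadj hab).symm h1
          rw [htied] at hp
          rw [← h3] at hp
          exact hanti _ _ hab hp.2.2.1
        have h3 := hroot b hb h2
        have h4 := hdD a ha
        omega
    -- an arc from the rest to `D` goes to `x`, from its parent
    have hinD : ∀ a ∈ B, a ∉ D → ∀ b ∈ D, E a b → b = x ∧ G.dist r x = G.dist r a + 1 := by
      intro a ha haD b hb hab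
      rcases hG.dist_eq_dist_add_one_of_adj r (htadj hab) with h1 | h1
      · exfalso
        refine haD (hclosed (p := b) ?_ hb)
        rw [htied]
        exact ⟨ha, hDB hb, hab, h1⟩
      · by_cases hbx : b = x
        · exact ⟨hbx, hbx ▸ h1⟩
        · exfalso
          obtain ⟨p, -, hp⟩ := hDt b hb hbx
          have h2 := huniq hp (htadj hab).symm h1
          rw [htied] at hp
          rw [← h2] at hp
          exact hanti _ _ hab hp.2.2.1
    -- the rest
    set m := D.card with hm
    have hm1 : 1 ≤ m := Finset.card_pos.2 ⟨x, hxD⟩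
    have hcB : (B \ D).card + m = n := by
      rw [hm, card_sdiff_add_card_eq_card hDB, hB]
    obtain ⟨f, I, hI, hf1, hf2, hf3⟩ := ih (B \ D).card (by omega) (B \ D) rfl (by omega)
    -- the new vertices
    obtain ⟨W, hW1, hW2, hW3, hW4⟩ : ∃ W : Finset ℕ, W.card = 2 * m ∧ Disjoint W I ∧
        (∀ w ∈ W, ∀ z ∈ B \ D, E z x → R (v (f z)) (v w)) ∧ Sta (4 * (B \ D).card + 2 * (2 * m)) (I ∪ W) := by
      apply Sta.many (n := X.card) (I₀ := I) _ (2 * m) (Subset.refl _) hI (by omega)
      intro N' I' hII hN' hn'
      by_cases hz : ∃ z ∈ B \ D, E z x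
      · obtain ⟨z, hz, hzx⟩ := hz
        obtain ⟨w, hw1, hw2, hw3⟩ := hN'.leaf hv hn' (hII (hf1 z hz))
        refine ⟨w, hw1, hw2, ?_⟩
        intro z' hz' hz'x
        have h1 := (hinD z (mem_sdiff.1 hz).1 (mem_sdiff.1 hz).2 x hxD hzx).2
        have h2 := (hinD z' (mem_sdiff.1 hz').1 (mem_sdiff.1 hz').2 x hxD hz'x).2
        rw [parent_unique hG r x z' z (htadj hz'x).symm (htadj hzx).symm h2 h1]
        exact hw3
      · obtain ⟨w, hw1, hw2⟩ := hN'.free
        exact ⟨w, hw1, hw2, fun z h1 h2 => absurd ⟨z, h1, h2⟩ hz⟩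
    have hWlt : ∀ w ∈ W, w < X.card := by
      intro w hw
      have := hW4.1 w (mem_union_right _ hw)
      omega
    have hWinj : Set.InjOn v W := fun w hw w' hw' e => hv.2.1 w w' (hWlt w hw) (hWlt w' hw') e
    have hWc : (W.image v).card = 2 * m := by
      rw [card_image_of_injOn hWinj, hW1]
    have hT' : AE32.Tour (fun a b => R b a) := ⟨hT.irr, fun a b h => (hT.tot a b h).symm, fun a b h => hT.asym b a h⟩
    obtain ⟨v', hv'⟩ := exists_med hT' (W.image v)
    obtain ⟨g, J, hJ, hg1, hg2, hg3⟩ := emb_in hanti hG r hv' m D rfl hup (by rw [hWc])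
    have hgW : ∀ a ∈ D, ∃ w ∈ W, v w = v' (g a) := by
      intro a ha
      have h1 := hJ.1 _ (hg1 a ha)
      exact mem_image.1 (hv'.1 (g a) (by omega))
    choose! g' hg'1 hg'2 using hgW
    have hcross : ∀ a ∈ D, ∀ b ∈ B \ D, g' a ≠ f b := by
      intro a ha b hb e
      exact (Finset.disjoint_left.1 hW2) (hg'1 a ha) (e ▸ hf1 b hb)
    refine ⟨fun a => if a ∈ D then g' a else f a, I ∪ W, ?_, ?_, ?_, ?_⟩
    · have h1 : 4 * (B \ D).card + 2 * (2 * m) = 4 * n := by omega
      rw [← h1]
      exact hW4
    · intro a ha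
      by_cases h : a ∈ D
      · simp only [h, if_true]
        exact mem_union_right _ (hg'1 a h)
      · simp only [h, if_false]
        exact mem_union_left _ (hf1 a (mem_sdiff.2 ⟨ha, h⟩))
    · intro a ha b hb hab
      by_cases h : a ∈ D
      · by_cases h' : b ∈ D
        · simp only [h, h', if_true] at hab
          have h1 : v' (g a) = v' (g b) := by rw [← hg'2 a h, ← hg'2 b h', hab]
          have h2 := hJ.1 _ (hg1 a h)
          have h3 := hJ.1 _ (hg1 b h')
          exact hg2 a h b h' (hv'.2.1 _ _ (by omega) (by omega) h1)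
        · simp only [h, h', if_true, if_false] at hab
          exact absurd hab (hcross a h b (mem_sdiff.2 ⟨hb, h'⟩))
      · by_cases h' : b ∈ D
        · simp only [h, h', if_true, if_false] at hab
          exact absurd hab.symm (hcross b h' a (mem_sdiff.2 ⟨ha, h⟩))
        · simp only [h, h', if_false] at hab
          exact hf2 a (mem_sdiff.2 ⟨ha, h⟩) b (mem_sdiff.2 ⟨hb, h'⟩) hab
    · intro a ha b hb hab
      by_cases h : a ∈ D
      · by_cases h' : b ∈ D
        · simp only [h, h', if_true]
          rw [hg'2 a h, hg'2 b h']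
          exact hg3 a h b h' hab
        · exact absurd hab (hout a h b hb h')
      · by_cases h' : b ∈ D
        · simp only [h, h', if_true, if_false]
          have h1 := (hinD a ha h b h' hab).1
          subst h1
          exact hW3 _ (hg'1 b h') a (mem_sdiff.2 ⟨ha, h⟩) hab
        · simp only [h, h', if_false]
          exact hf3 a (mem_sdiff.2 ⟨ha, h⟩) b (mem_sdiff.2 ⟨hb, h'⟩) hab

theorem emb_lin [Nonempty V] (hT : AE32.Tour R) (hanti : ∀ a b, E a b → ¬ E b a)
    (hG : (SimpleGraph.fromRel E).IsTree) (B : Finset τ) (X : Finset V) (hX : 4 * B.card ≤ X.card) :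
    ∃ f : τ → V, (∀ a ∈ B, f a ∈ X) ∧ (∀ a ∈ B, ∀ b ∈ B, f a = f b → a = b) ∧
      ∀ a ∈ B, ∀ b ∈ B, E a b → R (f a) (f b) := by
  obtain ⟨v, hv⟩ := exists_med hT X
  obtain ⟨r⟩ := hG.1.nonempty
  obtain ⟨f, I, hI, hf1, hf2, hf3⟩ := emb_ord hT hanti hG r hv _ B rfl hX
  have hlt : ∀ a ∈ B, f a < X.card := by
    intro a ha
    have := hI.1 _ (hf1 a ha)
    omega
  exact ⟨fun a => v (f a), fun a ha => hv.1 _ (hlt a ha),
    fun a ha b hb hab => hf2 a ha b hb (hv.2.1 _ _ (hlt a ha) (hlt b hb) hab), hf3⟩

end forest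

end AECat
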