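import Pool.Agent.AECat.Main
import Pool.Agent.AECat.Median

/-!
# Pieces along a path of arbitrary orientation: from the abstract spine theorem to oriented trees
-/

set_option autoImplicit false

namespace AECat

open Finset AE15
open scoped Classical

/-- balls in graphs of bounded degree -/
theorem ball_card {τ : Type*} [Fintype τ] {G : SimpleGraph τ} {Δ : ℕ} (hΔ : ∀ v, (G.neighborSet v).ncard ≤ Δ) :
    ∀ (r : ℕ) (a : τ), (univ.filter (fun w => ∃ W : G.Walk a w, W.length ≤ r)).card ≤ (Δ + 1) ^ r := by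
  intro r
  induction r with
  | zero =>
    intro a
    rw [pow_zero]
    apply Finset.card_le_one.2
    intro x hx y hy
    obtain ⟨-, W, hW⟩ := mem_filter.1 hx
    obtain ⟨-, W', hW'⟩ := mem_filter.1 hy
    rw [← SimpleGraph.Walk.eq_of_length_eq_zero (p := W) (by omega),
      ← SimpleGraph.Walk.eq_of_length_eq_zero (p := W') (by omega)]
  | succ r ih =>
    intro a
    have h1 : (univ.filter (fun w => ∃ W : G.Walk a w, W.length ≤ r + 1)) ⊆ insert a
        ((univ.filter (fun c => G.Adj a c)).biUnion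
          (fun c => univ.filter (fun w => ∃ W : G.Walk c w, W.length ≤ r))) := by
      intro w hw
      obtain ⟨-, W, hW⟩ := mem_filter.1 hw
      rw [mem_insert, mem_biUnion]
      cases W with
      | nil => exact Or.inl rfl
      | @cons _ c _ hac W =>
        right
        refine ⟨c, mem_filter.2 ⟨mem_univ _, hac⟩, mem_filter.2 ⟨mem_univ _, W, ?_⟩⟩
        rw [SimpleGraph.Walk.length_cons] at hW
        omega
    have h2 : (univ.filter (fun c => G.Adj a c)).card ≤ Δ := by
      refine le_trans (le_of_eq ?_) (hΔ a)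
      rw [← Set.ncard_coe_finset]
      congr 1
      ext c
      simp
    have h3 : 1 ≤ (Δ + 1) ^ r := Nat.one_le_pow _ _ (by omega)
    calc _ ≤ _ := card_le_card h1
      _ ≤ _ := card_insert_le _ _
      _ ≤ (univ.filter (fun c => G.Adj a c)).card * (Δ + 1) ^ r + 1 := by
          apply Nat.add_le_add_right
          exact card_biUnion_le_card_mul _ _ _ (fun c _ => ih c)
      _ ≤ Δ * (Δ + 1) ^ r + (Δ + 1) ^ r := Nat.add_le_add (Nat.mul_le_mul_right _ h2) h3
      _ = (Δ + 1) ^ (r + 1) := by ring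

/-! ### Cutting a tree along a path -/

section cut

variable {τ : Type*} {G : SimpleGraph τ}

/-- the edges of the path `q 0, ..., q m` -/
def PE (q : ℕ → τ) (m : ℕ) : Set (Sym2 τ) := {e | ∃ i, i < m ∧ e = s(q i, q (i + 1))}

theorem cut_exists (hG : G.Connected) (m : ℕ) (q : ℕ → τ) (v : τ) :
    ∃ i, i ≤ m ∧ (G.deleteEdges (PE q m)).Reachable (q i) v := by
  obtain ⟨w⟩ := hG.preconnected (q 0) v
  have key : ∀ a b : τ, G.Walk a b → (∃ i, i ≤ m ∧ (G.deleteEdges (PE q m)).Reachable (q i) a) →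
      ∃ i, i ≤ m ∧ (G.deleteEdges (PE q m)).Reachable (q i) b := by
    intro a b w
    induction w with
    | nil => exact id
    | @cons a c b hac w ih =>
      rintro ⟨i, him, hi⟩
      apply ih
      by_cases he : s(a, c) ∈ PE q m
      · obtain ⟨j, hjm, hj⟩ := he
        rw [Sym2.eq_iff] at hj
        rcases hj with ⟨-, h2⟩ | ⟨-, h2⟩
        · exact ⟨j + 1, hjm, by rw [h2]⟩
        · exact ⟨j, hjm.le, by rw [h2]⟩
      · refine ⟨i, him, hi.trans (SimpleGraph.Adj.reachable ?_)⟩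
        rw [SimpleGraph.deleteEdges_adj]
        exact ⟨hac, he⟩
  exact key _ _ w ⟨0, Nat.zero_le _, SimpleGraph.Reachable.refl _⟩

theorem cut_unique (hG : G.IsAcyclic) (m : ℕ) (q : ℕ → τ) (hq : ∀ i j, i ≤ m → j ≤ m → q i = q j → i = j)
    (hadj : ∀ i, i < m → G.Adj (q i) (q (i + 1))) (i j : ℕ) (hij : i < j) (hjm : j ≤ m)
    (hr : (G.deleteEdges (PE q m)).Reachable (q i) (q j)) : False := by
  have hbr := SimpleGraph.isAcyclic_iff_forall_adj_isBridge.1 hG (hadj i (by omega))
  rw [SimpleGraph.isBridge_iff] at hbr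
  apply hbr
  have h1 : (G.deleteEdges {s(q i, q (i + 1))}).Reachable (q i) (q j) := by
    refine hr.mono ?_
    apply SimpleGraph.deleteEdges_anti
    rintro e rfl
    exact ⟨i, by omega, rfl⟩
  have h2 : ∀ t : ℕ, i + 1 + t ≤ m → (G.deleteEdges {s(q i, q (i + 1))}).Reachable (q (i + 1)) (q (i + 1 + t)) := by
    intro t
    induction t with
    | zero => exact fun _ => SimpleGraph.Reachable.refl _
    | succ t ih =>
      intro ht
      refine (ih (by omega)).trans (SimpleGraph.Adj.reachable ?_)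
      rw [SimpleGraph.deleteEdges_adj]
      refine ⟨hadj (i + 1 + t) (by omega), ?_⟩
      intro e
      rw [Set.mem_singleton_iff, Sym2.eq_iff] at e
      rcases e with ⟨e3, e4⟩ | ⟨e3, e4⟩
      · have := hq _ _ (by omega) (by omega) e3
        omega
      · have := hq _ _ (by omega) (by omega) e4
        omega
  have h3 := h2 (j - (i + 1)) (by omega)
  rw [show i + 1 + (j - (i + 1)) = j by omega] at h3
  exact h1.trans h3.symm

/-- the cutting of a tree along a path -/
theorem cut_index (hG : G.IsTree) (m : ℕ) (q : ℕ → τ) (hq : ∀ i j, i ≤ m → j ≤ m → q i = q j → i = j)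
    (hadj : ∀ i, i < m → G.Adj (q i) (q (i + 1))) :
    ∃ ι : τ → ℕ, (∀ v, ι v ≤ m) ∧ (∀ v, (G.deleteEdges (PE q m)).Reachable (q (ι v)) v) ∧
      (∀ i, i ≤ m → ι (q i) = i) ∧
      ∀ u v, G.Adj u v → ι u = ι v ∨ ∃ i, i < m ∧ ((u = q i ∧ v = q (i + 1)) ∨ (u = q (i + 1) ∧ v = q i)) := by
  choose ι hιm hι using fun v => cut_exists hG.1 m q v
  have huniq : ∀ i j, i ≤ m → j ≤ m → (G.deleteEdges (PE q m)).Reachable (q i) (q j) → i = j := by
    intro i j hi hj hr
    rcases lt_trichotomy i j with h | h | h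
    · exact (cut_unique hG.2 m q hq hadj i j h hj hr).elim
    · exact h
    · exact (cut_unique hG.2 m q hq hadj j i h hi hr.symm).elim
  refine ⟨ι, hιm, hι, fun i hi => huniq _ _ (hιm _) hi (hι (q i)), ?_⟩
  intro u v huv
  by_cases he : s(u, v) ∈ PE q m
  · right
    obtain ⟨i, him, hi⟩ := he
    rw [Sym2.eq_iff] at hi
    exact ⟨i, him, hi⟩
  · left
    apply huniq _ _ (hιm _) (hιm _)
    refine (hι u).trans (SimpleGraph.Reachable.trans (SimpleGraph.Adj.reachable ?_) (hι v).symm)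
    rw [SimpleGraph.deleteEdges_adj]
    exact ⟨huv, he⟩

end cut

/-! ### The two sides of a root -/

section side

variable {τ : Type*} {E : τ → τ → Prop}

/-- `v` is behind an out-neighbour of the root `r` -/
def Side (E : τ → τ → Prop) (r v : τ) : Prop :=
  ∃ w, E r w ∧ ((SimpleGraph.fromRel E).deleteEdges {s(r, w)}).Reachable w v

theorem side_out {r a : τ} (h : E r a) : Side E r a := ⟨a, h, SimpleGraph.Reachable.refl _⟩

theorem side_adj {r a b : τ} (ha : a ≠ r) (hb : b ≠ r) (hab : (SimpleGraph.fromRel E).Adj a b) (h : Side E r a) :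
    Side E r b := by
  obtain ⟨w, hw, hr⟩ := h
  refine ⟨w, hw, hr.trans (SimpleGraph.Adj.reachable ?_)⟩
  rw [SimpleGraph.deleteEdges_adj]
  refine ⟨hab, ?_⟩
  intro e
  rw [Set.mem_singleton_iff, Sym2.eq_iff] at e
  rcases e with ⟨e, -⟩ | ⟨-, e⟩
  · exact ha e
  · exact hb e

theorem side_in (hanti : ∀ a b, E a b → ¬ E b a) (hG : (SimpleGraph.fromRel E).IsAcyclic) {r a : τ} (h : E a r) :
    ¬ Side E r a := by
  rintro ⟨w, hw, hr⟩
  have hne : r ≠ w := fun e => by subst e; exact hanti _ _ hw hw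
  have hadj : (SimpleGraph.fromRel E).Adj r w := ⟨hne, Or.inl hw⟩
  have hbr := SimpleGraph.isAcyclic_iff_forall_adj_isBridge.1 hG hadj
  rw [SimpleGraph.isBridge_iff] at hbr
  apply hbr
  have hnar : a ≠ r := fun e => by subst e; exact hanti _ _ h h
  have haw : a ≠ w := fun e => by subst e; exact hanti _ _ h hw
  refine SimpleGraph.Reachable.symm (hr.trans (SimpleGraph.Adj.reachable ?_))
  rw [SimpleGraph.deleteEdges_adj]
  refine ⟨⟨hnar, Or.inl h⟩, ?_⟩
  intro e
  rw [Set.mem_singleton_iff, Sym2.eq_iff] at e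
  rcases e with ⟨e, -⟩ | ⟨e, -⟩
  · exact hnar e
  · exact haw e

end side

/-! ### The fibres -/

section fibre

variable {τ V : Type*} [Fintype τ] {E : τ → τ → Prop} {R : V → V → Prop}

/-- the class of index `i` without its root -/
noncomputable def dcl (q : ℕ → τ) (ι : τ → ℕ) (i : ℕ) : Finset τ := univ.filter (fun v => ι v = i ∧ v ≠ q i)

theorem mem_dcl {q : ℕ → τ} {ι : τ → ℕ} {i : ℕ} {v : τ} : v ∈ dcl q ι i ↔ ι v = i ∧ v ≠ q i := by simp [dcl]

/-- the class of index `i` with its root at `h` and all the other vertices in `U` -/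
def PdF (R : V → V → Prop) (E : τ → τ → Prop) (q : ℕ → τ) (ι : τ → ℕ) (i : ℕ) (h : V) (U : Finset V) : Prop :=
  ∃ f : τ → V, f (q i) = h ∧ (∀ a ∈ dcl q ι i, ∀ b ∈ dcl q ι i, f a = f b → a = b) ∧ U = (dcl q ι i).image f ∧
    ∀ a b, ι a = i → ι b = i → E a b → R (f a) (f b)

/-- the sets of non-root vertices of the pieces can be placed in every set of `K` vertices -/
def SmallEmb (R : V → V → Prop) (E : τ → τ → Prop) (q : ℕ → τ) (ι : τ → ℕ) (K : ℕ) : Prop :=
  ∀ i, ∀ B ⊆ dcl q ι i, ∀ X : Finset V, K ≤ X.card → ∃ f : τ → V, (∀ a ∈ B, f a ∈ X) ∧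
    (∀ a ∈ B, ∀ b ∈ B, f a = f b → a = b) ∧ ∀ a ∈ B, ∀ b ∈ B, E a b → R (f a) (f b)

theorem smallEmb_lin [Nonempty V] (hT : AE32.Tour R) (hanti : ∀ a b, E a b → ¬ E b a)
    (hG : (SimpleGraph.fromRel E).IsTree) (q : ℕ → τ) (ι : τ → ℕ) (s : ℕ) (hs : ∀ i, (dcl q ι i).card ≤ s) :
    SmallEmb R E q ι (4 * s) := by
  intro i B hB X hX
  have h1 : B.card ≤ s := (card_le_card hB).trans (hs i)
  exact emb_lin hT hanti hG B X (by omega)

theorem exists_inj {α β : Type*} [Nonempty β] (B : Finset α) (X : Finset β) (h : B.card ≤ X.card) :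
    ∃ f : α → β, (∀ a ∈ B, f a ∈ X) ∧ ∀ a ∈ B, ∀ b ∈ B, f a = f b → a = b := by
  obtain ⟨X', hX', hc⟩ := Finset.exists_subset_card_eq h
  have e := Finset.equivOfCardEq hc.symm
  refine ⟨fun a => if ha : a ∈ B then (e ⟨a, ha⟩ : β) else Classical.arbitrary β, ?_, ?_⟩
  · intro a ha
    simp only [ha, dif_pos]
    exact hX' (e ⟨a, ha⟩).2
  · intro a ha b hb hab
    simp only [ha, hb, dif_pos] at hab
    have := e.injective (Subtype.ext hab)
    exact congrArg Subtype.val this

theorem smallEmb_leaf [Nonempty V] (q : ℕ → τ) (ι : τ → ℕ) (s : ℕ) (hs : ∀ i, (dcl q ι i).card ≤ s)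
    (hleaf : ∀ i, ∀ a ∈ dcl q ι i, ∀ b ∈ dcl q ι i, ¬ E a b) : SmallEmb R E q ι s := by
  intro i B hB X hX
  have h1 : B.card ≤ X.card := (card_le_card hB).trans ((hs i).trans hX)
  obtain ⟨f, hf, hinj⟩ := exists_inj B X h1
  exact ⟨f, hf, hinj, fun a ha b hb hab => absurd hab (hleaf i a (hB ha) b (hB hb))⟩

theorem pen_fibre (hT : AE32.Tour R) (hanti : ∀ a b, E a b → ¬ E b a) (hG : (SimpleGraph.fromRel E).IsAcyclic)
    (q : ℕ → τ) (ι : τ → ℕ) (s K : ℕ) (hs : ∀ i, (dcl q ι i).card ≤ s) (hK : SmallEmb R E q ι K) :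
    Pen R (PdF R E q ι) (fun i => (dcl q ι i).card) s K := by
  refine ⟨hs, ?_⟩
  intro i h Y hY
  set A := dcl q ι i with hA
  obtain ⟨f₁, h11, h12, h13⟩ := hK i (A.filter (fun v => Side E (q i) v)) (filter_subset _ _) (nO R Y h) hY.1
  obtain ⟨f₂, h21, h22, h23⟩ := hK i (A.filter (fun v => ¬ Side E (q i) v)) (filter_subset _ _) (nI R Y h) hY.2
  obtain ⟨f, hf⟩ : ∃ f : τ → V, f = fun v => if v = q i then h else if Side E (q i) v then f₁ v else f₂ v := ⟨_, rfl⟩
  have hf0 : f (q i) = h := by simp [hf]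
  have hf1 : ∀ v, v ≠ q i → Side E (q i) v → f v = f₁ v := by
    intro v h1 h2
    simp only [hf, h1, h2, if_true, if_false]
  have hf2 : ∀ v, v ≠ q i → ¬ Side E (q i) v → f v = f₂ v := by
    intro v h1 h2
    simp only [hf, h1, h2, if_false]
  have hm1 : ∀ v ∈ A, Side E (q i) v → f v ∈ nO R Y h := by
    intro v hv h2
    rw [hf1 v (mem_dcl.1 hv).2 h2]
    exact h11 v (mem_filter.2 ⟨hv, h2⟩)
  have hm2 : ∀ v ∈ A, ¬ Side E (q i) v → f v ∈ nI R Y h := by
    intro v hv h2
    rw [hf2 v (mem_dcl.1 hv).2 h2]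
    exact h21 v (mem_filter.2 ⟨hv, h2⟩)
  have hinj : ∀ a ∈ A, ∀ b ∈ A, f a = f b → a = b := by
    intro a ha b hb hab
    have ha' := (mem_dcl.1 ha).2
    have hb' := (mem_dcl.1 hb).2
    by_cases h1 : Side E (q i) a
    · by_cases h2 : Side E (q i) b
      · rw [hf1 a ha' h1, hf1 b hb' h2] at hab
        exact h12 a (mem_filter.2 ⟨ha, h1⟩) b (mem_filter.2 ⟨hb, h2⟩) hab
      · exfalso
        have h3 := (mem_nO.1 (hm1 a ha h1)).2
        have h4 := (mem_nI.1 (hm2 b hb h2)).2
        rw [← hab] at h4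
        exact hT.asym _ _ h3 h4
    · by_cases h2 : Side E (q i) b
      · exfalso
        have h3 := (mem_nI.1 (hm2 a ha h1)).2
        have h4 := (mem_nO.1 (hm1 b hb h2)).2
        rw [← hab] at h4
        exact hT.asym _ _ h4 h3
      · rw [hf2 a ha' h1, hf2 b hb' h2] at hab
        exact h22 a (mem_filter.2 ⟨ha, h1⟩) b (mem_filter.2 ⟨hb, h2⟩) hab
  refine ⟨A.image f, ?_, card_image_of_injOn (fun a ha b hb => hinj a ha b hb), f, hf0, hinj, rfl, ?_⟩
  · intro u hu
    obtain ⟨v, hv, rfl⟩ := mem_image.1 hu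
    by_cases h2 : Side E (q i) v
    · exact (mem_nO.1 (hm1 v hv h2)).1
    · exact (mem_nI.1 (hm2 v hv h2)).1
  · intro a b ha hb hab
    have hne : a ≠ b := fun e => by subst e; exact hanti _ _ hab hab
    by_cases h1 : a = q i
    · have h2 : b ≠ q i := fun e => hne (h1.trans e.symm)
      have hb' : b ∈ A := mem_dcl.2 ⟨hb, h2⟩
      have h3 : Side E (q i) b := side_out (h1 ▸ hab)
      rw [h1, hf0]
      exact (mem_nO.1 (hm1 b hb' h3)).2
    · have ha' : a ∈ A := mem_dcl.2 ⟨ha, h1⟩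
      by_cases h2 : b = q i
      · have h3 : ¬ Side E (q i) a := side_in hanti hG (h2 ▸ hab)
        rw [h2, hf0]
        exact (mem_nI.1 (hm2 a ha' h3)).2
      · have hb' : b ∈ A := mem_dcl.2 ⟨hb, h2⟩
        have hadj : (SimpleGraph.fromRel E).Adj a b := ⟨hne, Or.inl hab⟩
        by_cases h3 : Side E (q i) a
        · have h4 := side_adj h1 h2 hadj h3
          rw [hf1 a h1 h3, hf1 b h2 h4]
          exact h13 a (mem_filter.2 ⟨ha', h3⟩) b (mem_filter.2 ⟨hb', h4⟩) hab
        · have h4 : ¬ Side E (q i) b := fun h5 => h3 (side_adj h2 h1 hadj.symm h5)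
          rw [hf2 a h1 h3, hf2 b h2 h4]
          exact h23 a (mem_filter.2 ⟨ha', h3⟩) b (mem_filter.2 ⟨hb', h4⟩) hab

/-- From the placement of the spine with the pendants to the tree. -/
theorem assemble {m : ℕ} {q : ℕ → τ} {ι : τ → ℕ} {ε : ℕ → Bool}
    (hidx : ∀ i, i ≤ m → ι (q i) = i)
    (harc : ∀ u v, E u v → ι u = ι v ∨ ∃ j, j < m ∧ ((u = q j ∧ v = q (j + 1) ∧ ε j = true) ∨
      (u = q (j + 1) ∧ v = q j ∧ ε j = false))) (hle : ∀ v, ι v ≤ m) :
    ∀ (d i : ℕ), i + d = m → ∀ (h : V) (X : Finset V), h ∉ X → Go R ε (PdF R E q ι) d i h X →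
      ∃ f : τ → V, f (q i) = h ∧ (∀ v, i ≤ ι v → v ≠ q i → f v ∈ X) ∧
        (∀ a b, i ≤ ι a → i ≤ ι b → f a = f b → a = b) ∧ ∀ a b, i ≤ ι a → i ≤ ι b → E a b → R (f a) (f b) := by
  intro d
  induction d with
  | zero =>
    intro i him h X hX hgo
    obtain ⟨U, hU, f, hf0, hf1, hf2, hf3⟩ := hgo
    have hi : ∀ v, i ≤ ι v → ι v = i := fun v hv => le_antisymm (by have := hle v; omega) hv
    have hmem : ∀ v, i ≤ ι v → v ≠ q i → f v ∈ X := by
      intro v hv hne
      apply hU
      rw [hf2]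
      exact mem_image_of_mem _ (mem_dcl.2 ⟨hi v hv, hne⟩)
    refine ⟨f, hf0, hmem, ?_, fun a b ha hb => hf3 a b (hi a ha) (hi b hb)⟩
    intro a b ha hb hab
    by_cases h1 : a = q i
    · by_cases h2 : b = q i
      · rw [h1, h2]
      · exact absurd (hmem b hb h2) (by rw [← hab, h1, hf0]; exact hX)
    · by_cases h2 : b = q i
      · exact absurd (hmem a ha h1) (by rw [hab, h2, hf0]; exact hX)
      · exact hf1 a (mem_dcl.2 ⟨hi a ha, h1⟩) b (mem_dcl.2 ⟨hi b hb, h2⟩) hab
  | succ d ih =>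
    intro i him h X hX hgo
    obtain ⟨U, hU, ⟨f₀, hf0, hf1, hf2, hf3⟩, h', hh', harr, hgo'⟩ := hgo
    obtain ⟨f₁, hg0, hg1, hg2, hg3⟩ := ih (i + 1) (by omega) h' _ (notMem_erase _ _) hgo'
    obtain ⟨f, hf⟩ : ∃ f : τ → V, f = fun v => if ι v = i then f₀ v else f₁ v := ⟨_, rfl⟩
    have hfa : ∀ v, ι v = i → f v = f₀ v := by
      intro v hv
      simp only [hf, hv, if_true]
    have hfb : ∀ v, i + 1 ≤ ι v → f v = f₁ v := by
      intro v hv
      have : ι v ≠ i := by omega
      simp only [hf, this, if_false]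
    have hU0 : ∀ v, ι v = i → v ≠ q i → f₀ v ∈ U := by
      intro v hv hne
      rw [hf2]
      exact mem_image_of_mem _ (mem_dcl.2 ⟨hv, hne⟩)
    have hX1 : ∀ v, i + 1 ≤ ι v → f₁ v ∈ X \ U := by
      intro v hv
      by_cases h1 : v = q (i + 1)
      · rw [h1, hg0]
        exact hh'
      · exact (mem_erase.1 (hg1 v hv h1)).2
    have hcross : ∀ a b, ι a = i → i + 1 ≤ ι b → f₀ a ≠ f₁ b := by
      intro a b ha hb e
      have h1 := mem_sdiff.1 (hX1 b hb)
      rw [← e] at h1
      by_cases h2 : a = q i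
      · rw [h2, hf0] at h1
        exact hX h1.1
      · exact h1.2 (hU0 a ha h2)
    refine ⟨f, ?_, ?_, ?_, ?_⟩
    · rw [hfa _ (hidx i (by omega)), hf0]
    · intro v hv hne
      by_cases h1 : ι v = i
      · rw [hfa v h1]
        exact hU (hU0 v h1 hne)
      · rw [hfb v (by omega)]
        exact (mem_sdiff.1 (hX1 v (by omega))).1
    · intro a b ha hb hab
      by_cases h1 : ι a = i
      · by_cases h2 : ι b = i
        · rw [hfa a h1, hfa b h2] at hab
          by_cases h3 : a = q i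
          · by_cases h4 : b = q i
            · rw [h3, h4]
            · exfalso
              have := hU (hU0 b h2 h4)
              rw [← hab, h3, hf0] at this
              exact hX this
          · by_cases h4 : b = q i
            · exfalso
              have := hU (hU0 a h1 h3)
              rw [hab, h4, hf0] at this
              exact hX this
            · exact hf1 a (mem_dcl.2 ⟨h1, h3⟩) b (mem_dcl.2 ⟨h2, h4⟩) hab
        · rw [hfa a h1, hfb b (by omega)] at hab
          exact absurd hab (hcross a b h1 (by omega))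
      · by_cases h2 : ι b = i
        · rw [hfb a (by omega), hfa b h2] at hab
          exact absurd hab.symm (hcross b a h2 (by omega))
        · rw [hfb a (by omega), hfb b (by omega)] at hab
          exact hg2 a b (by omega) (by omega) hab
    · intro a b ha hb hab
      rcases harc a b hab with h1 | ⟨j, hjm, h1⟩
      · by_cases h2 : ι a = i
        · rw [hfa a h2, hfa b (by omega)]
          exact hf3 a b h2 (by omega) hab
        · rw [hfb a (by omega), hfb b (by omega)]
          exact hg3 a b (by omega) (by omega) hab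
      · have e1 := hidx j (by omega)
        have e2 := hidx (j + 1) (by omega)
        rcases h1 with ⟨h1, h2, h3⟩ | ⟨h1, h2, h3⟩
        · rw [h1, e1] at ha
          rcases Nat.eq_or_lt_of_le ha with h4 | h4
          · subst h4
            rw [h1, h2, hfa _ e1, hfb _ e2.ge, hf0, hg0]
            rw [h3] at harr
            exact harr
          · rw [hfb a (by rw [h1, e1]; omega), hfb b (by rw [h2, e2]; omega)]
            exact hg3 a b (by rw [h1, e1]; omega) (by rw [h2, e2]; omega) hab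
        · rw [h2, e1] at hb
          rcases Nat.eq_or_lt_of_le hb with h4 | h4
          · subst h4
            rw [h1, h2, hfa _ e1, hfb _ e2.ge, hf0, hg0]
            rw [h3] at harr
            exact harr
          · rw [hfb a (by rw [h1, e2]; omega), hfb b (by rw [h2, e1]; omega)]
            exact hg3 a b (by rw [h1, e2]; omega) (by rw [h2, e1]; omega) hab

theorem rm_eq {m : ℕ} {q : ℕ → τ} {ι : τ → ℕ} (hidx : ∀ i, i ≤ m → ι (q i) = i) (hle : ∀ v, ι v ≤ m) :
    ∀ (d i : ℕ), i + d = m →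
      rm (fun i => (dcl q ι i).card) d i + 1 = (univ.filter (fun v => i ≤ ι v)).card := by
  intro d
  induction d with
  | zero =>
    intro i him
    have h1 : univ.filter (fun v => i ≤ ι v) = insert (q i) (dcl q ι i) := by
      ext v
      rw [mem_insert, mem_dcl, mem_filter]
      constructor
      · rintro ⟨-, h2⟩
        by_cases h3 : v = q i
        · exact Or.inl h3
        · exact Or.inr ⟨le_antisymm (by have := hle v; omega) h2, h3⟩
      · rintro (h2 | h2)
        · exact ⟨mem_univ _, by rw [h2, hidx i (by omega)]⟩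
        · exact ⟨mem_univ _, h2.1.ge⟩
    rw [h1, card_insert_of_notMem (fun h => (mem_dcl.1 h).2 rfl)]
    rfl
  | succ d ih =>
    intro i him
    have h1 : univ.filter (fun v => i ≤ ι v) = insert (q i) (dcl q ι i ∪ univ.filter (fun v => i + 1 ≤ ι v)) := by
      ext v
      rw [mem_insert, mem_union, mem_dcl, mem_filter, mem_filter]
      constructor
      · rintro ⟨-, h2⟩
        by_cases h3 : v = q i
        · exact Or.inl h3
        · by_cases h4 : ι v = i
          · exact Or.inr (Or.inl ⟨h4, h3⟩)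
          · exact Or.inr (Or.inr ⟨mem_univ _, by omega⟩)
      · rintro (h2 | h2 | h2)
        · exact ⟨mem_univ _, by rw [h2, hidx i (by omega)]⟩
        · exact ⟨mem_univ _, h2.1.ge⟩
        · exact ⟨mem_univ _, by omega⟩
    have h2 : q i ∉ dcl q ι i ∪ univ.filter (fun v => i + 1 ≤ ι v) := by
      intro h
      rw [mem_union, mem_dcl, mem_filter, hidx i (by omega)] at h
      rcases h with h | h
      · exact h.2 rfl
      · omega
    have h3 : Disjoint (dcl q ι i) (univ.filter (fun v => i + 1 ≤ ι v)) := by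
      rw [Finset.disjoint_left]
      intro v hv hv'
      have := (mem_dcl.1 hv).1
      have := (mem_filter.1 hv').2
      omega
    rw [h1, card_insert_of_notMem h2, card_union_of_disjoint h3, ← ih (i + 1) (by omega)]
    show (dcl q ι i).card + 1 + rm (fun i => (dcl q ι i).card) d (i + 1) + 1 = _
    omega

end fibre

/-- The theorem for spines with pendants of bounded size (`AECat.main_spine`) with its constant -/
theorem main_spine_explicit (s K : ℕ) {V : Type*} {R : V → V → Prop} (hT : AE32.Tour R) (ε : ℕ → Bool)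
    (Pd : ℕ → V → Finset V → Prop) (sz : ℕ → ℕ) (hP : Pen R Pd sz s K) (m : ℕ) (X : Finset V)
    (C : ℕ) (hC : C = 1000000 * (K + 116 * s + 115)) (hX' : rm sz m 0 + C ≤ X.card) :
      ∃ h ∈ X, Go R ε Pd m 0 h (X.erase h) := by
  obtain ⟨M, hM⟩ : ∃ M, M = 22 * (s + 1) := ⟨_, rfl⟩
  obtain ⟨Q, hQ⟩ : ∃ Q, Q = M + 2 * s := ⟨_, rfl⟩
  obtain ⟨c₁, hc₁⟩ : ∃ c₁, c₁ = K + 2 * Q + M + 2 := ⟨_, rfl⟩
  obtain ⟨c, hc⟩ : ∃ c, c = c₁ + Q + 1 := ⟨_, rfl⟩
  obtain ⟨N, hN⟩ : ∃ N, N = 1000000 * (c + M + 1) := ⟨_, rfl⟩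
  have hX : rm sz m 0 + (N + 4) ≤ X.card := by
    have h1 : N + 4 ≤ C := by
      subst hM hQ hc₁ hc
      omega
    omega
  clear hX' hC
  obtain ⟨ε', hε'⟩ : ∃ ε' : ℕ → Bool, ε' = fun j => if j < 3 then true else ε (j - 3) := ⟨_, rfl⟩
  obtain ⟨Pd', hPd'⟩ : ∃ Pd' : ℕ → V → Finset V → Prop,
    Pd' = fun j => if j < 3 then (fun _ U => U = ∅) else Pd (j - 3) := ⟨_, rfl⟩
  obtain ⟨sz', hsz'⟩ : ∃ sz' : ℕ → ℕ, sz' = fun j => if j < 3 then 0 else sz (j - 3) := ⟨_, rfl⟩
  have e1 : (fun j => ε' (j + 3)) = ε := by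
    funext j
    simp [hε']
  have e2 : (fun j => Pd' (j + 3)) = Pd := by
    funext j
    simp [hPd']
  have e3 : (fun j => sz' (j + 3)) = sz := by
    funext j
    simp [hsz']
  have hP' : Pen R Pd' sz' s K := by
    constructor
    · intro i
      rw [hsz']
      by_cases hi : i < 3
      · simp [hi]
      · simp only [hi, if_false]
        exact hP.sz_le _
    · intro i h Y hY
      by_cases hi : i < 3
      · exact ⟨∅, empty_subset _, by simp [hsz', hi], by simp [hPd', hi]⟩
      · obtain ⟨U, hU, hUc, hPd⟩ := hP.pen (i - 3) h Y hY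
        exact ⟨U, hU, by simp [hsz', hi, hUc], by simp only [hPd', hi, if_false]; exact hPd⟩
  obtain ⟨x, hx, H, hS, -⟩ := exists_sup hT c₁ Q X (by omega)
  rw [← hc] at hS
  have h0 : rm sz' (m + 3) 0 = 3 + rm sz m 0 := by
    have h1 : rm sz' (m + 3) 0 = sz' 0 + 1 + (sz' 1 + 1 + (sz' 2 + 1 + rm sz' m 3)) := rfl
    have h2 : rm sz' m 3 = rm sz m 0 := by
      have := rm_shift (sz := sz') 3 m 0
      rw [e3] at this
      exact this
    have h3 : sz' 0 = 0 ∧ sz' 1 = 0 ∧ sz' 2 = 0 := by simp [hsz']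
    rw [h1, h2, h3.1, h3.2.1, h3.2.2]
    omega
  have hcard : (X.erase x).card + 1 = X.card := card_erase_add_one hx
  have hgo : Go R ε' Pd' (m + 3) 0 x (X.erase x) := by
    refine main_ind hT ⟨hM, hQ, hc₁, hc, hN⟩ hP' (m + 3) 0 x (X.erase x) H (Or.inl ?_) ?_ ?_
    · simp [Tri, hε']
    · have h1 : ε' 0 = true := by simp [hε']
      rw [h1]
      have h2 : ((X.erase x) \ (X.erase x)).card = 0 := by simp
      exact hS.shrink (Subset.refl _) (hS.sub.trans nO_sub) (by omega)
    · rw [h0]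
      omega
  obtain ⟨U₁, _, _, h₁, hh₁, _, U₂, _, _, h₂, hh₂, _, U₃, _, _, h₃, hh₃, _, hgo⟩ := hgo
  have h1 := go_shift (i := 0) 3 hgo
  rw [e1, e2] at h1
  refine ⟨h₃, ?_, h1.mono ?_⟩
  · have h2 := (mem_sdiff.1 hh₃).1
    have h4 := (mem_sdiff.1 (mem_erase.1 h2).2).1
    have h5 := (mem_sdiff.1 (mem_erase.1 h4).2).1
    exact (mem_erase.1 h5).2
  · intro u hu
    have h2 := mem_erase.1 hu
    have h3 := (mem_sdiff.1 h2.2).1
    have h4 := (mem_sdiff.1 (mem_erase.1 h3).2).1
    have h5 := (mem_sdiff.1 (mem_erase.1 h4).2).1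
    exact mem_erase.2 ⟨h2.1, (mem_erase.1 h5).2⟩


/-- The theorem for trees with a path such that the pieces are small, with a parameter for the placement of the
pieces. -/
theorem tree_of_path {τ V : Type} [Fintype τ] [Fintype V] {E : τ → τ → Prop} {R : V → V → Prop}
    (hT : AE32.Tour R) (hanti : ∀ a b, E a b → ¬ E b a) (hG : (SimpleGraph.fromRel E).IsTree) (s K : ℕ)
    (u v : τ) (P : (SimpleGraph.fromRel E).Walk u v) (hP : P.IsPath)
    (hcomp : ∀ (q : ℕ → τ) (ι : τ → ℕ), (∀ i, i ≤ P.length → q i ∈ P.support) →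
      (∀ w ∈ P.support, w = q (ι w)) → (∀ a, ι a ≤ P.length) → (∀ i, i ≤ P.length → ι (q i) = i) →
      (∀ w, ((SimpleGraph.fromRel E).deleteEdges {e | e ∈ P.edges}).Reachable (q (ι w)) w) →
      (∀ a b, (SimpleGraph.fromRel E).Adj a b → ι a = ι b ∨ (a ∈ P.support ∧ b ∈ P.support)) →
      (∀ i, (dcl q ι i).card ≤ s) ∧ SmallEmb R E q ι K)
    (C : ℕ) (hC : C = 1000000 * (K + 116 * s + 115)) (hcard : Fintype.card τ + C ≤ Fintype.card V) :
    ∃ f : τ → V, Function.Injective f ∧ ∀ a b, E a b → R (f a) (f b) := by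
  set q : ℕ → τ := P.getVert with hq
  set m := P.length with hm
  have hinj : ∀ i j, i ≤ m → j ≤ m → q i = q j → i = j := by
    intro i j hi hj hij
    exact hP.getVert_injOn hi hj hij
  have hadj : ∀ i, i < m → (SimpleGraph.fromRel E).Adj (q i) (q (i + 1)) := fun i hi => P.adj_getVert_succ hi
  obtain ⟨ι, hle, hreach, hidx, harc⟩ := cut_index hG m q hinj hadj
  obtain ⟨ε, hε⟩ : ∃ ε : ℕ → Bool, ε = fun j => decide (E (q j) (q (j + 1))) := ⟨_, rfl⟩
  have harc' : ∀ u v, E u v → ι u = ι v ∨ ∃ j, j < m ∧ ((u = q j ∧ v = q (j + 1) ∧ ε j = true) ∨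
      (u = q (j + 1) ∧ v = q j ∧ ε j = false)) := by
    intro a b hab
    have hne : a ≠ b := fun e => by subst e; exact hanti _ _ hab hab
    rcases harc a b ⟨hne, Or.inl hab⟩ with h1 | ⟨j, hj, h1 | h1⟩
    · exact Or.inl h1
    · right
      refine ⟨j, hj, Or.inl ⟨h1.1, h1.2, ?_⟩⟩
      simp only [hε, decide_eq_true_eq]
      rw [← h1.1, ← h1.2]
      exact hab
    · right
      refine ⟨j, hj, Or.inr ⟨h1.1, h1.2, ?_⟩⟩
      simp only [hε, decide_eq_false_iff_not]
      rw [← h1.1, ← h1.2]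
      exact hanti _ _ hab
  have hPE : PE q m = {e | e ∈ P.edges} := by
    ext e
    induction e using Sym2.ind with
    | _ a b =>
      rw [Set.mem_ofPred_eq, SimpleGraph.Walk.mk_mem_edges_iff_exists]
      constructor
      · rintro ⟨i, hi, h1⟩
        exact ⟨i, hi, h1.symm⟩
      · rintro ⟨i, hi, h1⟩
        exact ⟨i, hi, h1.symm⟩
  have hsupp : ∀ i, i ≤ m → q i ∈ P.support := fun i _ => P.getVert_mem_support i
  obtain ⟨hs, hK⟩ := hcomp q ι hsupp (by
    intro w hw
    obtain ⟨i, hi, him⟩ := SimpleGraph.Walk.mem_support_iff_exists_getVert.1 hw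
    have h1 := hidx i him
    rw [← hi]
    show q i = q (ι (q i))
    rw [h1]) hle hidx (by rw [← hPE]; exact hreach) (by
    intro a b hab
    rcases harc a b hab with h1 | ⟨j, hj, h1 | h1⟩
    · exact Or.inl h1
    · exact Or.inr ⟨h1.1 ▸ hsupp _ hj.le, h1.2 ▸ hsupp _ hj⟩
    · exact Or.inr ⟨h1.1 ▸ hsupp _ hj, h1.2 ▸ hsupp _ hj.le⟩)
  have hpen := pen_fibre (R := R) hT hanti hG.2 q ι s K hs hK
  have hrm := rm_eq (q := q) hidx hle m 0 (by omega)
  have huniv : (univ.filter (fun v => 0 ≤ ι v)) = (univ : Finset τ) := by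
    ext w
    simp
  rw [huniv, card_univ] at hrm
  obtain ⟨h, -, hgo⟩ := main_spine_explicit s K hT ε _ _ hpen m (univ : Finset V) C hC (by
    rw [card_univ]
    clear hC
    omega)
  obtain ⟨f, -, -, hf1, hf2⟩ := assemble hidx harc' hle m 0 (by omega) h _ (notMem_erase _ _) hgo
  exact ⟨f, fun a b hab => hf1 a b (Nat.zero_le _) (Nat.zero_le _) hab,
    fun a b hab => hf2 a b (Nat.zero_le _) (Nat.zero_le _) hab⟩

/-- **Bounded pieces.** -/
theorem tree_pieces {τ V : Type} [Fintype τ] [Fintype V] {E : τ → τ → Prop} {R : V → V → Prop}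
    (hT : AE32.Tour R) (hanti : ∀ a b, E a b → ¬ E b a) (hG : (SimpleGraph.fromRel E).IsTree) (s : ℕ)
    (u v : τ) (P : (SimpleGraph.fromRel E).Walk u v) (hP : P.IsPath)
    (hcomp : ∀ c : ((SimpleGraph.fromRel E).deleteEdges {e | e ∈ P.edges}).ConnectedComponent, c.supp.ncard ≤ s + 1)
    (C : ℕ) (hC : C = 1000000 * (4 * s + 116 * s + 115)) (hcard : Fintype.card τ + C ≤ Fintype.card V) :
    ∃ f : τ → V, Function.Injective f ∧ ∀ a b, E a b → R (f a) (f b) := by
  have hne : Nonempty V := by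
    rw [← Fintype.card_pos_iff]
    have : 0 < Fintype.card τ := Fintype.card_pos_iff.2 ⟨u⟩
    clear hC
    omega
  refine tree_of_path hT hanti hG s (4 * s) u v P hP ?_ C hC hcard
  intro q ι hsupp hq hle hidx hreach harc
  have hs : ∀ i, (dcl q ι i).card ≤ s := by
    intro i
    by_cases hi : i ≤ P.length
    · have h1 := hcomp (((SimpleGraph.fromRel E).deleteEdges {e | e ∈ P.edges}).connectedComponentMk (q i))
      have h2 : (insert (q i) (dcl q ι i) : Finset τ).card ≤ s + 1 := by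
        refine le_trans ?_ h1
        rw [← Set.ncard_coe_finset]
        refine Set.ncard_le_ncard ?_ (Set.toFinite _)
        intro w hw
        rw [mem_coe, mem_insert, mem_dcl] at hw
        rw [SimpleGraph.ConnectedComponent.mem_supp_iff, SimpleGraph.ConnectedComponent.eq]
        rcases hw with hw | hw
        · rw [hw]
        · have h3 := hreach w
          rw [hw.1] at h3
          exact h3.symm
      rw [card_insert_of_notMem (fun h => (mem_dcl.1 h).2 rfl)] at h2
      omega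
    · have : dcl q ι i = ∅ := by
        rw [eq_empty_iff_forall_notMem]
        intro w hw
        have h1 := (mem_dcl.1 hw).1
        have h2 := hle w
        omega
      rw [this]
      simp
  exact ⟨hs, smallEmb_lin hT hanti hG q ι s hs⟩

/-- **Caterpillars.** -/
theorem caterpillars {τ V : Type} [Fintype τ] [Fintype V] {E : τ → τ → Prop} {R : V → V → Prop}
    (hT : AE32.Tour R) (hanti : ∀ a b, E a b → ¬ E b a) (hG : (SimpleGraph.fromRel E).IsTree) (Δ : ℕ)
    (hΔ : ∀ v, ((SimpleGraph.fromRel E).neighborSet v).ncard ≤ Δ)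
    (u v : τ) (P : (SimpleGraph.fromRel E).Walk u v) (hP : P.IsPath)
    (hdom : ∀ w, w ∉ P.support → ∃ x ∈ P.support, (SimpleGraph.fromRel E).Adj x w)
    (C : ℕ) (hC : C = 1000000 * (Δ + 116 * Δ + 115)) (hcard : Fintype.card τ + C ≤ Fintype.card V) :
    ∃ f : τ → V, Function.Injective f ∧ ∀ a b, E a b → R (f a) (f b) := by
  have hne : Nonempty V := by
    rw [← Fintype.card_pos_iff]
    have : 0 < Fintype.card τ := Fintype.card_pos_iff.2 ⟨u⟩
    clear hC
    omega
  refine tree_of_path hT hanti hG Δ Δ u v P hP ?_ C hC hcard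
  intro q ι hsupp hq hle hidx hreach harc
  have hadj : ∀ i, ∀ a ∈ dcl q ι i, (SimpleGraph.fromRel E).Adj (q i) a := by
    intro i a ha
    rw [mem_dcl] at ha
    have h1 : a ∉ P.support := by
      intro h
      have := hq a h
      rw [ha.1] at this
      exact ha.2 this
    obtain ⟨x, hx, hxa⟩ := hdom a h1
    rcases harc x a hxa with h2 | h2
    · have h3 := hq x hx
      rw [h2, ha.1] at h3
      rw [← h3]
      exact hxa
    · exact absurd h2.2 h1
  have hs : ∀ i, (dcl q ι i).card ≤ Δ := by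
    intro i
    refine le_trans ?_ (hΔ (q i))
    rw [← Set.ncard_coe_finset]
    refine Set.ncard_le_ncard ?_ (Set.toFinite _)
    intro w hw
    exact hadj i w hw
  refine ⟨hs, smallEmb_leaf q ι Δ hs ?_⟩
  intro i a ha b hb hab
  have h1 := hadj i a ha
  have h2 := hadj i b hb
  have hne : a ≠ b := fun e => by subst e; exact hanti _ _ hab hab
  have hab' : (SimpleGraph.fromRel E).Adj a b := ⟨hne, Or.inl hab⟩
  have hbr := SimpleGraph.isAcyclic_iff_forall_adj_isBridge.1 hG.2 hab'
  rw [SimpleGraph.isBridge_iff] at hbr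
  apply hbr
  have h3 : ((SimpleGraph.fromRel E).deleteEdges {s(a, b)}).Adj a (q i) := by
    rw [SimpleGraph.deleteEdges_adj]
    refine ⟨h1.symm, ?_⟩
    intro e
    rw [Set.mem_singleton_iff, Sym2.eq_iff] at e
    rcases e with ⟨-, e⟩ | ⟨e, -⟩
    · exact (mem_dcl.1 hb).2 e.symm
    · exact hne e
  have h4 : ((SimpleGraph.fromRel E).deleteEdges {s(a, b)}).Adj (q i) b := by
    rw [SimpleGraph.deleteEdges_adj]
    refine ⟨h2, ?_⟩
    intro e
    rw [Set.mem_singleton_iff, Sym2.eq_iff] at e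
    rcases e with ⟨e, -⟩ | ⟨e, -⟩
    · exact (mem_dcl.1 ha).2 e.symm
    · exact (mem_dcl.1 hb).2 e.symm
  exact h3.reachable.trans h4.reachable

/-- **Trees of bounded degree near a path.** -/
theorem tree_near {τ V : Type} [Fintype τ] [Fintype V] {E : τ → τ → Prop} {R : V → V → Prop}
    (hT : AE32.Tour R) (hanti : ∀ a b, E a b → ¬ E b a) (hG : (SimpleGraph.fromRel E).IsTree) (Δ r : ℕ)
    (hΔ : ∀ v, ((SimpleGraph.fromRel E).neighborSet v).ncard ≤ Δ)
    (u v : τ) (P : (SimpleGraph.fromRel E).Walk u v) (hP : P.IsPath)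
    (hdom : ∀ w, ∃ x ∈ P.support, (SimpleGraph.fromRel E).dist x w ≤ r) (s : ℕ) (hs : s = (Δ + 1) ^ r)
    (C : ℕ) (hC : C = 1000000 * (4 * s + 116 * s + 115)) (hcard : Fintype.card τ + C ≤ Fintype.card V) :
    ∃ f : τ → V, Function.Injective f ∧ ∀ a b, E a b → R (f a) (f b) := by
  have hne : Nonempty V := by
    rw [← Fintype.card_pos_iff]
    have : 0 < Fintype.card τ := Fintype.card_pos_iff.2 ⟨u⟩
    clear hC
    omega
  refine tree_of_path hT hanti hG s (4 * s) u v P hP ?_ C hC hcard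
  intro q ι hsupp hq hle hidx hreach harc
  have key : ∀ {a w : τ} (W : (SimpleGraph.fromRel E).Walk a w),
      ι a = ι w ∨ ∃ W' : (SimpleGraph.fromRel E).Walk (q (ι w)) w, W'.length ≤ W.length := by
    intro a w W
    induction W with
    | nil => exact Or.inl rfl
    | @cons a c w hac W ih =>
      rw [SimpleGraph.Walk.length_cons]
      rcases ih with h1 | ⟨W', hW'⟩
      · by_cases h2 : ι a = ι c
        · exact Or.inl (h2.trans h1)
        · rcases harc a c hac with h3 | h3
          · exact absurd h3 h2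
          · right
            have h4 := hq c h3.2
            rw [h1] at h4
            refine ⟨W.copy h4 rfl, ?_⟩
            rw [SimpleGraph.Walk.length_copy]
            omega
      · exact Or.inr ⟨W', by omega⟩
  have hball : ∀ w, ∃ W : (SimpleGraph.fromRel E).Walk (q (ι w)) w, W.length ≤ r := by
    intro w
    obtain ⟨x, hx, hxw⟩ := hdom w
    obtain ⟨W, hW⟩ := (hG.1.preconnected x w).exists_walk_length_eq_dist
    rcases key W with h1 | ⟨W', hW'⟩
    · have h2 := hq x hx
      rw [h1] at h2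
      refine ⟨W.copy h2 rfl, ?_⟩
      rw [SimpleGraph.Walk.length_copy]
      omega
    · exact ⟨W', by omega⟩
  have hs : ∀ i, (dcl q ι i).card ≤ s := by
    intro i
    rw [hs]
    refine le_trans (card_le_card ?_) (ball_card hΔ r (q i))
    intro w hw
    have h1 := (mem_dcl.1 hw).1
    have h2 := hball w
    rw [h1] at h2
    exact mem_filter.2 ⟨mem_univ _, h2⟩
  exact ⟨hs, smallEmb_lin hT hanti hG q ι s hs⟩

end AECat
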