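import Pool.Agent.AECat.Steps

/-!
# Words, and the theorem for spines with pendants
-/

set_option autoImplicit false

namespace AECat

open Finset AE15
open scoped Classical

/-- a run of length at least `3` starts at `j` -/
def LS (ε : ℕ → Bool) (j : ℕ) : Prop := ε (j - 1) ≠ ε j ∧ ε (j + 1) = ε j ∧ ε (j + 2) = ε j

/-- three equal arcs -/
def Tri (ε : ℕ → Bool) (i : ℕ) : Prop := ε (i + 1) = ε i ∧ ε (i + 2) = ε i

/-- the indices at which a super vertex can be used -/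
def Gd (ε : ℕ → Bool) (i : ℕ) : Prop := Tri ε i ∨ ∀ j, i < j → j < i + 5 → ¬ LS ε j

/-- **Words**: the next target -/
theorem exists_target (ε : ℕ → Bool) (i : ℕ) (hg : Gd ε i)
    (hn : ¬ (Tri ε i ∧ ε (i + 3) = ε i ∧ ε (i + 4) = ε i)) :
    ∃ j t, i + 1 ≤ t ∧ t + 2 ≤ j ∧ j ≤ i + 20 ∧ ε t = ε i ∧ ε (j - 1) ≠ ε j ∧ Gd ε j := by
  have hb : ∀ a b c : Bool, a ≠ b → b ≠ c → a = c := by decide
  -- the index `t`
  have ht : ¬ LS ε (i + 1) → ∃ t, i + 1 ≤ t ∧ t ≤ i + 3 ∧ ε t = ε i := by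
    intro h
    by_cases h1 : ε (i + 1) = ε i
    · exact ⟨i + 1, le_rfl, by omega, h1⟩
    · by_cases h2 : ε (i + 2) = ε (i + 1)
      · by_cases h3 : ε (i + 3) = ε (i + 1)
        · exfalso
          exact h ⟨fun h4 => h1 (by simpa using h4.symm), h2, h3⟩
        · exact ⟨i + 3, by omega, by omega, hb _ _ _ h3 h1⟩
      · exact ⟨i + 2, by omega, by omega, hb _ _ _ h2 h1⟩
  by_cases hL : ∃ j, i < j ∧ j ≤ i + 20 ∧ LS ε j
  · obtain ⟨hj1, hj2, hj3⟩ := Nat.find_spec hL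
    set j := Nat.find hL with hj
    have hGj : Gd ε j := Or.inl hj3.2
    by_cases hT : Tri ε i
    · refine ⟨j, i + 1, le_rfl, ?_, hj2, hT.1, hj3.1, hGj⟩
      have h1 : j ≠ i + 1 := by
        intro h
        rw [h] at hj3
        exact hj3.1 hT.1.symm
      have h2 : j ≠ i + 2 := by
        intro h
        rw [h] at hj3
        exact hj3.1 (hT.1.trans hT.2.symm)
      omega
    · rcases hg with hg | hg
      · exact absurd hg hT
      · obtain ⟨t, ht1, ht2, ht3⟩ := ht (hg _ (by omega) (by omega))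
        have h1 : ¬ j < i + 5 := fun h => hg j hj1 h hj3
        exact ⟨j, t, ht1, by omega, hj2, ht3, hj3.1, hGj⟩
  · have hL' : ∀ j, i < j → j ≤ i + 20 → ¬ LS ε j := fun j h1 h2 h3 => hL ⟨j, h1, h2, h3⟩
    obtain ⟨t, ht1, ht2, ht3⟩ := ht (hL' _ (by omega) (by omega))
    have hturn : ∃ j, i + 5 ≤ j ∧ j ≤ i + 7 ∧ ε (j - 1) ≠ ε j := by
      by_contra hc
      push Not at hc
      have h5 : ε (i + 4) = ε (i + 5) := hc (i + 5) (by omega) (by omega)
      have h6 : ε (i + 5) = ε (i + 6) := hc (i + 6) (by omega) (by omega)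
      have e4 : ε (i + 3) = ε (i + 4) := by
        by_contra h
        exact hL' (i + 4) (by omega) (by omega) ⟨h, h5.symm, (h5.trans h6).symm⟩
      have e3 : ε (i + 2) = ε (i + 3) := by
        by_contra h
        exact hL' (i + 3) (by omega) (by omega) ⟨h, e4.symm, (e4.trans h5).symm⟩
      have e2 : ε (i + 1) = ε (i + 2) := by
        by_contra h
        exact hL' (i + 2) (by omega) (by omega) ⟨h, e3.symm, (e3.trans e4).symm⟩
      have e1 : ε i = ε (i + 1) := by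
        by_contra h
        exact hL' (i + 1) (by omega) (by omega) ⟨h, e2.symm, (e2.trans e3).symm⟩
      exact hn ⟨⟨e1.symm, (e1.trans e2).symm⟩, (e1.trans (e2.trans e3)).symm, (e1.trans (e2.trans (e3.trans e4))).symm⟩
    obtain ⟨j, hj1, hj2, hj3⟩ := hturn
    exact ⟨j, t, ht1, by omega, by omega, ht3, hj3, Or.inr (fun k hk1 hk2 => hL' k (by omega) (by omega))⟩

variable {V : Type*} {R : V → V → Prop}

/-- **The induction** -/
theorem main_ind (hT : AE32.Tour R) {ε : ℕ → Bool} {Pd : ℕ → V → Finset V → Prop} {sz : ℕ → ℕ}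
    {s K M Q c₁ c N : ℕ} (hc : Cst s K M Q c₁ c N) (hP : Pen R Pd sz s K) (d : ℕ) :
    ∀ (i : ℕ) (x : V) (X H : Finset V), Gd ε i → Sup (rr R (ε i)) c c₁ s (2 * Q) X x H →
      rm sz d i + N ≤ X.card → Go R ε Pd d i x X := by
  induction d using Nat.strong_induction_on with
  | _ d ih =>
    intro i x X H hg hS hC
    rcases Nat.lt_or_ge d 22 with hd | hd
    · exact final_step hT hc hP hS (by omega) hC
    by_cases hn : Tri ε i ∧ ε (i + 3) = ε i ∧ ε (i + 4) = ε i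
    · obtain ⟨⟨h1, h2⟩, h3, h4⟩ := hn
      obtain ⟨d', rfl⟩ : ∃ d', d = d' + 2 := ⟨d - 2, by omega⟩
      refine round_step hT hc hP hS h1 hC ?_ ?_
      · intro X' x' H' hS' hC'
        refine ih (d' + 1) (by omega) (i + 1) x' X' H' (Or.inl ⟨h2.trans h1.symm, h3.trans h1.symm⟩) ?_ hC'
        rw [h1]
        exact hS'
      · intro X' x' H' hS' hC'
        refine ih d' (by omega) (i + 2) x' X' H' (Or.inl ⟨h3.trans h2.symm, h4.trans h2.symm⟩) ?_ hC'
        rw [h2]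
        exact hS'
    · obtain ⟨j, t, ht1, ht2, hj, hεt, hεj, hgj⟩ := exists_target ε i hg hn
      obtain ⟨q₀, rfl⟩ : ∃ q₀, j = i + 1 + q₀ + 1 := ⟨j - i - 2, by omega⟩
      obtain ⟨d', rfl⟩ : ∃ d', d = d' + 1 + q₀ + 1 := ⟨d - q₀ - 2, by omega⟩
      refine block_step hT hc hP (r := i + 1 + q₀ - t - 1) hS (by omega) (by omega) ?_ ?_ hC ?_
      · have h1 : i + 1 + q₀ - (i + 1 + q₀ - t - 1 + 1) = t := by omega
        rw [h1]
        exact hεt
      · exact hεj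
      · intro X' x' H' hS' hC'
        exact ih d' (by omega) _ x' X' H' hgj hS' hC'

theorem Go.mono {ε : ℕ → Bool} {Pd : ℕ → V → Finset V → Prop} {d : ℕ} :
    ∀ {i : ℕ} {h : V} {X Y : Finset V}, X ⊆ Y → Go R ε Pd d i h X → Go R ε Pd d i h Y := by
  induction d with
  | zero =>
    rintro i h X Y hXY ⟨U, hU, hPd⟩
    exact ⟨U, hU.trans hXY, hPd⟩
  | succ d ih =>
    rintro i h X Y hXY ⟨U, hU, hPd, h', hh', harc, hgo⟩
    refine ⟨U, hU.trans hXY, hPd, h', sdiff_subset_sdiff hXY (Subset.refl _) hh', harc, ih ?_ hgo⟩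
    exact erase_subset_erase _ (sdiff_subset_sdiff hXY (Subset.refl _))

theorem go_shift {ε : ℕ → Bool} {Pd : ℕ → V → Finset V → Prop} {d : ℕ} (k : ℕ) :
    ∀ {i : ℕ} {h : V} {X : Finset V}, Go R ε Pd d (i + k) h X →
      Go R (fun j => ε (j + k)) (fun j => Pd (j + k)) d i h X := by
  induction d with
  | zero =>
    rintro i h X ⟨U, hU, hPd⟩
    exact ⟨U, hU, hPd⟩
  | succ d ih =>
    rintro i h X ⟨U, hU, hPd, h', hh', harc, hgo⟩
    refine ⟨U, hU, hPd, h', hh', harc, ih ?_⟩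
    have : i + 1 + k = i + k + 1 := by omega
    rw [this]
    exact hgo

theorem rm_shift {sz : ℕ → ℕ} (k : ℕ) (d : ℕ) : ∀ i, rm sz d (i + k) = rm (fun j => sz (j + k)) d i := by
  induction d with
  | zero => intro i; rfl
  | succ d ih =>
    intro i
    have h1 : i + k + 1 = i + 1 + k := by omega
    show sz (i + k) + 1 + rm sz d (i + k + 1) = sz (i + k) + 1 + rm (fun j => sz (j + k)) d (i + 1)
    rw [h1, ih]

/-- **The theorem for spines with pendants of bounded size** -/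
theorem main_spine (s K : ℕ) : ∃ C : ℕ, ∀ {V : Type*} {R : V → V → Prop}, AE32.Tour R → ∀ (ε : ℕ → Bool)
    (Pd : ℕ → V → Finset V → Prop) (sz : ℕ → ℕ), Pen R Pd sz s K → ∀ (m : ℕ) (X : Finset V),
      rm sz m 0 + C ≤ X.card → ∃ h ∈ X, Go R ε Pd m 0 h (X.erase h) := by
  obtain ⟨M, hM⟩ : ∃ M, M = 22 * (s + 1) := ⟨_, rfl⟩
  obtain ⟨Q, hQ⟩ : ∃ Q, Q = M + 2 * s := ⟨_, rfl⟩
  obtain ⟨c₁, hc₁⟩ : ∃ c₁, c₁ = K + 2 * Q + M + 2 := ⟨_, rfl⟩
  obtain ⟨c, hc⟩ : ∃ c, c = c₁ + Q + 1 := ⟨_, rfl⟩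
  obtain ⟨N, hN⟩ : ∃ N, N = 1000000 * (c + M + 1) := ⟨_, rfl⟩
  refine ⟨N + 4, ?_⟩
  intro V R hT ε Pd sz hP m X hX
  obtain ⟨ε', hε'⟩ : ∃ ε' : ℕ → Bool, ε' = fun j => if j < 3 then true else ε (j - 3) := ⟨_, rfl⟩
  obtain ⟨Pd', hPd'⟩ : ∃ Pd' : ℕ → V → Finset V → Prop,
    Pd' = fun j => if j < 3 then (fun _ U => U = ∅) else Pd (j - 3) := ⟨_, rfl⟩
  obtain ⟨sz', hsz'⟩ : ∃ sz' : ℕ → ℕ, sz' = fun j => if j < 3 then 0 else sz (j - 3) := ⟨_, rfl⟩
  have e1 : (fun j => ε' (j + 3)) = ε := by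
    funext j
    simp [hε']
  have e2 : (fun j => Pd' (j + 3)) = Pd := by
    funext j
    simp [hPd']
  have e3 : (fun j => sz' (j + 3)) = sz := by
    funext j
    simp [hsz']
  have hP' : Pen R Pd' sz' s K := by
    constructor
    · intro i
      rw [hsz']
      by_cases hi : i < 3
      · simp [hi]
      · simp only [hi, if_false]
        exact hP.sz_le _
    · intro i h Y hY
      by_cases hi : i < 3
      · exact ⟨∅, empty_subset _, by simp [hsz', hi], by simp [hPd', hi]⟩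
      · obtain ⟨U, hU, hUc, hPd⟩ := hP.pen (i - 3) h Y hY
        exact ⟨U, hU, by simp [hsz', hi, hUc], by simp only [hPd', hi, if_false]; exact hPd⟩
  obtain ⟨x, hx, H, hS, -⟩ := exists_sup hT c₁ Q X (by omega)
  rw [← hc] at hS
  have h0 : rm sz' (m + 3) 0 = 3 + rm sz m 0 := by
    have h1 : rm sz' (m + 3) 0 = sz' 0 + 1 + (sz' 1 + 1 + (sz' 2 + 1 + rm sz' m 3)) := rfl
    have h2 : rm sz' m 3 = rm sz m 0 := by
      have := rm_shift (sz := sz') 3 m 0
      rw [e3] at this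
      exact this
    have h3 : sz' 0 = 0 ∧ sz' 1 = 0 ∧ sz' 2 = 0 := by simp [hsz']
    rw [h1, h2, h3.1, h3.2.1, h3.2.2]
    omega
  have hcard : (X.erase x).card + 1 = X.card := card_erase_add_one hx
  have hgo : Go R ε' Pd' (m + 3) 0 x (X.erase x) := by
    refine main_ind hT ⟨hM, hQ, hc₁, hc, hN⟩ hP' (m + 3) 0 x (X.erase x) H (Or.inl ?_) ?_ ?_
    · simp [Tri, hε']
    · have h1 : ε' 0 = true := by simp [hε']
      rw [h1]
      have h2 : ((X.erase x) \ (X.erase x)).card = 0 := by simp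
      exact hS.shrink (Subset.refl _) (hS.sub.trans nO_sub) (by omega)
    · rw [h0]
      omega
  obtain ⟨U₁, _, _, h₁, hh₁, _, U₂, _, _, h₂, hh₂, _, U₃, _, _, h₃, hh₃, _, hgo⟩ := hgo
  have h1 := go_shift (i := 0) 3 hgo
  rw [e1, e2] at h1
  refine ⟨h₃, ?_, h1.mono ?_⟩
  · have h2 := (mem_sdiff.1 hh₃).1
    have h4 := (mem_sdiff.1 (mem_erase.1 h2).2).1
    have h5 := (mem_sdiff.1 (mem_erase.1 h4).2).1
    exact (mem_erase.1 h5).2
  · intro u hu
    have h2 := mem_erase.1 hu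
    have h3 := (mem_sdiff.1 h2.2).1
    have h4 := (mem_sdiff.1 (mem_erase.1 h3).2).1
    have h5 := (mem_sdiff.1 (mem_erase.1 h4).2).1
    exact mem_erase.2 ⟨h2.1, (mem_erase.1 h5).2⟩

end AECat
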