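import Pool.Agent.AECat.Walk

/-!
# The steps: rounds, blocks, and the last steps
-/

set_option autoImplicit false

namespace AECat

open Finset AE15
open scoped Classical

variable {V : Type*} {R : V → V → Prop}

theorem go_step' {ε : ℕ → Bool} {Pd : ℕ → V → Finset V → Prop} {sz : ℕ → ℕ} {s K : ℕ} (hP : Pen R Pd sz s K)
    {d i : ℕ} {h : V} {Y Rsv : Finset V} {C : ℕ} (hdg : Dg R (K + Rsv.card) Y h)
    (hC : rm sz (d + 1) i + C ≤ Y.card)
    (hnext : ∀ U ⊆ Y \ Rsv, U.card = sz i → ∃ h' ∈ Y \ U, rr R (ε i) h h' ∧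
      (rm sz d (i + 1) + C ≤ ((Y \ U).erase h').card → Go R ε Pd d (i + 1) h' ((Y \ U).erase h'))) :
    Go R ε Pd (d + 1) i h Y := by
  have h1 : (Y \ (Y \ Rsv)).card ≤ Rsv.card := by
    apply card_le_card
    intro u hu
    rw [mem_sdiff, mem_sdiff] at hu
    by_contra h2
    exact hu.2 ⟨hu.1, h2⟩
  obtain ⟨U, hU, hUc, hPd⟩ := hP.pen i h (Y \ Rsv) (hdg.sub h1)
  obtain ⟨h', hh', harc, hgo⟩ := hnext U hU hUc
  have hUY : U ⊆ Y := hU.trans sdiff_subset
  refine ⟨U, hUY, hPd, h', hh', harc, hgo ?_⟩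
  have hc1 : ((Y \ U).erase h').card + 1 = (Y \ U).card := card_erase_add_one hh'
  have hc2 : (Y \ U).card + U.card = Y.card := card_sdiff_add_card_eq_card hUY
  have hrm : rm sz (d + 1) i = sz i + 1 + rm sz d (i + 1) := rfl
  omega

/-- the removed part -/
theorem card_sdiff_sdiff_le {X U : Finset V} {k : ℕ} (hU : U.card ≤ k) : (X \ (X \ U)).card ≤ k := by
  refine le_trans (card_le_card ?_) hU
  intro u hu
  rw [mem_sdiff, mem_sdiff] at hu
  by_contra h2
  exact hu.2 ⟨hu.1, h2⟩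

/-- the constants -/
structure Cst (s K M Q c₁ c N : ℕ) : Prop where
  hM : M = 22 * (s + 1)
  hQ : Q = M + 2 * s
  hc₁ : c₁ = K + 2 * Q + M + 2
  hc : c = c₁ + Q + 1
  hN : N = 1000000 * (c + M + 1)

/-- **A round** in a long run -/
theorem round_step (hT : AE32.Tour R) {ε : ℕ → Bool} {Pd : ℕ → V → Finset V → Prop} {sz : ℕ → ℕ}
    {s K M Q c₁ c N : ℕ} (hc : Cst s K M Q c₁ c N) (hP : Pen R Pd sz s K)
    {d i : ℕ} {x : V} {X H : Finset V} (hS : Sup (rr R (ε i)) c c₁ s (2 * Q) X x H)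
    (hε1 : ε (i + 1) = ε i) (hC : rm sz (d + 2) i + N ≤ X.card)
    (IH1 : ∀ (X' : Finset V) (x' : V) (H' : Finset V), Sup (rr R (ε i)) c c₁ s (2 * Q) X' x' H' →
      rm sz (d + 1) (i + 1) + N ≤ X'.card → Go R ε Pd (d + 1) (i + 1) x' X')
    (IH2 : ∀ (X' : Finset V) (x' : V) (H' : Finset V), Sup (rr R (ε i)) c c₁ s (2 * Q) X' x' H' →
      rm sz d (i + 2) + N ≤ X'.card → Go R ε Pd d (i + 2) x' X') :
    Go R ε Pd (d + 2) i x X := by
  obtain ⟨hM, hQ, hc₁, hcc, hN⟩ := hc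
  have hHX : H ⊆ X := hS.sub.trans nO_sub
  have hHc := hS.cardH
  have hcore := hS.coreSelf
  have hdgx : Dg R (K + H.card) X x := by
    rw [← dg_rr (ε i)]
    exact ⟨by have := hcore.degO; omega, by have := hcore.degI; omega⟩
  refine go_step' hP (Rsv := H) (C := N) hdgx hC ?_
  intro U hU hUc
  have hUX : U ⊆ X := hU.trans sdiff_subset
  have hsz := hP.sz_le i
  have hHX1 : H ⊆ X \ U := by
    intro u hu
    exact mem_sdiff.2 ⟨hHX hu, fun h => (mem_sdiff.1 (hU h)).2 hu⟩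
  have hX1c : (X \ U).card + U.card = X.card := card_sdiff_add_card_eq_card hUX
  have hrm : rm sz (d + 2) i = sz i + 1 + rm sz (d + 1) (i + 1) := rfl
  have hrm2 : rm sz (d + 1) (i + 1) = sz (i + 1) + 1 + rm sz d (i + 2) := rfl
  have hcore1 : Core (rr R (ε i)) c c₁ (X \ U) x :=
    hS.core _ sdiff_subset hHX1 (card_sdiff_sdiff_le (by omega))
  obtain ⟨z, hz, H', hS', hzI⟩ := exists_sup (tour_rr hT (ε i)) c₁ Q (X \ U) (by omega)
  rw [← hcc] at hS' hzI
  by_cases hxz : rr R (ε i) x z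
  · refine ⟨z, hz, hxz, fun h1 => IH1 _ z H' (hS'.shrink (Subset.refl _) (hS'.sub.trans nO_sub) ?_) h1⟩
    have h0 : (((X \ U).erase z) \ ((X \ U).erase z)).card = 0 := by simp
    omega
  · obtain ⟨v, hv, hxv, hvz, hvO, hvI⟩ := hcore1.run z hz hxz hzI
    refine ⟨v, hv, hxv, ?_⟩
    intro h1
    have hvz' : v ≠ z := by
      rintro rfl
      exact (tour_rr hT (ε i)).irr _ hvz
    have hH'sub : H' ⊆ (X \ U).erase z := hS'.sub.trans nO_sub
    have hvH' : v ∉ H' := fun h2 => (tour_rr hT (ε i)).asym _ _ hvz (mem_nO.1 (hS'.sub h2)).2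
    have hzH' : z ∉ H' := fun h2 => (mem_erase.1 (hH'sub h2)).1 rfl
    have hH'c := hS'.cardH
    have hRc : (insert z H').card ≤ 2 * Q + 1 := (card_insert_le _ _).trans (by omega)
    have hdgv : Dg R (K + (insert z H').card) ((X \ U).erase v) v := by
      have h2 : Dg R (K + (insert z H').card + 1) (X \ U) v := by
        rw [← dg_rr (ε i)]
        exact ⟨by omega, by omega⟩
      refine h2.sub ?_
      have h3 : (X \ U) \ (X \ U).erase v ⊆ {v} := by
        intro u hu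
        rw [mem_sdiff, mem_erase] at hu
        rw [mem_singleton]
        by_contra h4
        exact hu.2 ⟨h4, hu.1⟩
      simpa using card_le_card h3
    refine go_step' hP (Rsv := insert z H') (C := N) hdgv h1 ?_
    intro U' hU' hU'c
    have hsz' := hP.sz_le (i + 1)
    have hzU' : z ∉ U' := fun h2 => (mem_sdiff.1 (hU' h2)).2 (mem_insert_self _ _)
    refine ⟨z, mem_sdiff.2 ⟨mem_erase.2 ⟨hvz'.symm, hz⟩, hzU'⟩, ?_, ?_⟩
    · rw [hε1]
      exact hvz
    · intro h2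
      refine IH2 _ z H' (hS'.shrink ?_ ?_ ?_) h2
      · intro u hu
        rw [mem_erase, mem_sdiff, mem_erase] at hu
        exact mem_erase.2 ⟨hu.1, hu.2.1.2⟩
      · intro u hu
        have h3 := mem_erase.1 (hH'sub hu)
        rw [mem_erase, mem_sdiff, mem_erase]
        exact ⟨h3.1, ⟨fun e => hvH' (e ▸ hu), h3.2⟩, fun h4 => (mem_sdiff.1 (hU' h4)).2 (mem_insert_of_mem hu)⟩
      · have h3 : (X \ U).erase z \ (((X \ U).erase v \ U').erase z) ⊆ insert v U' := by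
          intro u hu
          simp only [mem_sdiff, mem_erase] at hu
          by_contra h4
          rw [mem_insert, not_or] at h4
          exact hu.2 ⟨hu.1.1, ⟨h4.1, hu.1.2⟩, h4.2⟩
        have h4 := (card_le_card h3).trans (card_insert_le _ _)
        omega

/-- the walk can be started at `x`: coverage -/
theorem start_cov (hT : AE32.Tour R) {b : Bool} {c c₁ : ℕ} {X : Finset V} {x : V} (hcore : Core (rr R b) c c₁ X x)
    {X' D₀ : Finset V} (hX' : X' ⊆ X) (hD₀ : D₀ ⊆ X') {a w : ℕ} (hw : (X \ X').card ≤ w)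
    (hD₀c : 2 * X.card ≤ 5 * (D₀.card + w)) {ε : ℕ → Bool} {e r q₀ : ℕ} (hr : r + 1 ≤ q₀) (hq₀ : q₀ ≤ 20)
    (hε : ε (e - (r + 1)) = b) (ha1 : 1 ≤ a) (han : 20000 * a ≤ X.card) (hwn : 1000 * w ≤ X.card) :
    a ≤ (nO (rr R b) (Dset R ε X' a D₀ e q₀) x).card := by
  obtain ⟨n, hn⟩ : ∃ n, n = X.card := ⟨_, rfl⟩
  have hn0 : 0 < n := by omega
  set A := nO (rr R b) X x with hA
  set Dr := Dset R ε X' a D₀ e r with hDr
  have hDrX : Dr ⊆ X' := Dset_sub hD₀ r
  have h1 : (D₀ \ Dr).card ≤ 2 * a * r := by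
    have := Dset_loss' hT (ε := ε) ha1 (e := e) hD₀ 0 r
    rw [Nat.zero_add] at this
    exact this
  have h1' : 2 * a * r ≤ 40 * a := by nlinarith
  have h2 : D₀.card ≤ Dr.card + 40 * a := by
    have h3 : D₀ ⊆ Dr ∪ (D₀ \ Dr) := by
      intro u hu
      rw [mem_union, mem_sdiff]
      by_cases h4 : u ∈ Dr
      · exact Or.inl h4
      · exact Or.inr ⟨hu, h4⟩
    have h4 := (card_le_card h3).trans (card_union_le _ _)
    omega
  set Z := X.filter (fun u => 25 * (nI (rr R b) A u).card < X.card) with hZ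
  have hZc : 4 * Z.card ≤ X.card := hcore.cov
  set D' := Dr \ Z with hD'
  have hD'c : Dr.card ≤ D'.card + Z.card := by
    have := le_card_sdiff Z Dr
    rw [← hD'] at this
    omega
  have h3 : n * D'.card ≤ 25 * ∑ u ∈ D', (nI (rr R b) A u).card := by
    rw [mul_sum, mul_comm, ← smul_eq_mul]
    refine card_nsmul_le_sum _ _ _ (fun u hu => ?_)
    rw [hD', mem_sdiff, hZ, mem_filter] at hu
    have h4 : ¬ 25 * (nI (rr R b) A u).card < X.card := fun h5 => hu.2 ⟨hX' (hDrX hu.1), h5⟩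
    omega
  rw [← sum_nO_eq_sum_nI A D'] at h3
  set A' := A.filter (fun v => a ≤ (nO (rr R b) Dr v).card) with hA'
  have h4 : ∑ v ∈ A, (nO (rr R b) D' v).card ≤ n * A'.card + n * a := by
    have h5 : ∑ v ∈ A, (nO (rr R b) D' v).card =
        ∑ v ∈ A', (nO (rr R b) D' v).card +
          ∑ v ∈ A.filter (fun v => ¬ a ≤ (nO (rr R b) Dr v).card), (nO (rr R b) D' v).card :=
      (sum_filter_add_sum_filter_not A _ _).symm
    have hAn : A.card ≤ n := by rw [hn]; exact card_le_card nO_sub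
    have h6 : ∑ v ∈ A', (nO (rr R b) D' v).card ≤ A'.card * n := by
      rw [← smul_eq_mul]
      refine sum_le_card_nsmul _ _ _ (fun v _ => ?_)
      rw [hn]
      exact card_le_card (nO_sub.trans (sdiff_subset.trans (hDrX.trans hX')))
    have h7 : ∑ v ∈ A.filter (fun v => ¬ a ≤ (nO (rr R b) Dr v).card), (nO (rr R b) D' v).card ≤
        (A.filter (fun v => ¬ a ≤ (nO (rr R b) Dr v).card)).card * a := by
      rw [← smul_eq_mul]
      refine sum_le_card_nsmul _ _ _ (fun v hv => ?_)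
      rw [mem_filter] at hv
      have h8 : (nO (rr R b) D' v).card ≤ (nO (rr R b) Dr v).card := card_le_card (nO_mono sdiff_subset)
      omega
    have h8 : (A.filter (fun v => ¬ a ≤ (nO (rr R b) Dr v).card)).card * a ≤ n * a :=
      Nat.mul_le_mul_right _ ((card_le_card (filter_subset _ _)).trans hAn)
    rw [h5]
    nlinarith
  have h5 : D'.card ≤ 25 * (A'.card + a) := by
    have h6 : n * D'.card ≤ n * (25 * (A'.card + a)) := by nlinarith
    exact Nat.le_of_mul_le_mul_left h6 hn0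
  -- `A'` is almost contained in `Dset (r + 1)`
  have h6 : A' ⊆ nO (rr R b) (Dset R ε X' a D₀ e q₀) x ∪ (X \ X') ∪
      (Dset R ε X' a D₀ e (r + 1) \ Dset R ε X' a D₀ e q₀) := by
    intro v hv
    rw [hA', mem_filter, hA, mem_nO] at hv
    rw [mem_union, mem_union, mem_sdiff, mem_sdiff, mem_nO]
    by_cases h7 : v ∈ X'
    · have h8 : v ∈ Dset R ε X' a D₀ e (r + 1) := by
        show v ∈ X'.filter _
        rw [mem_filter, hε]
        exact ⟨h7, hv.2⟩
      by_cases h9 : v ∈ Dset R ε X' a D₀ e q₀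
      · exact Or.inl (Or.inl ⟨h9, hv.1.2⟩)
      · exact Or.inr ⟨h8, h9⟩
    · exact Or.inl (Or.inr ⟨hv.1.1, h7⟩)
  have h7 : (Dset R ε X' a D₀ e (r + 1) \ Dset R ε X' a D₀ e q₀).card ≤ 40 * a := by
    obtain ⟨k, rfl⟩ := Nat.exists_eq_add_of_le hr
    have h8 := Dset_loss' hT (ε := ε) ha1 (e := e) hD₀ (r + 1) k
    have h9 : 2 * a * k ≤ 40 * a := by nlinarith
    exact h8.trans h9
  have h8 := (card_le_card h6).trans ((card_union_le _ _).trans (Nat.add_le_add_right (card_union_le _ _) _))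
  omega

/-- the walk can be started at `x`: without target -/
theorem start_big (hT : AE32.Tour R) {b : Bool} {c c₁ : ℕ} {X : Finset V} {x : V} (hcore : Core (rr R b) c c₁ X x)
    {X' : Finset V} {a w : ℕ} (hw : (X \ X').card ≤ w)
    {ε : ℕ → Bool} {e q₀ : ℕ} (hq₀ : q₀ ≤ 20)
    (ha1 : 1 ≤ a) (han : 20000 * a ≤ X.card) (hwn : 1000 * w ≤ X.card) :
    a ≤ (nO (rr R b) (Dset R ε X' a X' e q₀) x).card := by
  have h1 : nO (rr R b) X x ⊆ nO (rr R b) (Dset R ε X' a X' e q₀) x ∪ (X \ X') ∪ (X' \ Dset R ε X' a X' e q₀) := by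
    intro v hv
    rw [mem_nO] at hv
    rw [mem_union, mem_union, mem_sdiff, mem_sdiff, mem_nO]
    by_cases h7 : v ∈ X'
    · by_cases h9 : v ∈ Dset R ε X' a X' e q₀
      · exact Or.inl (Or.inl ⟨h9, hv.2⟩)
      · exact Or.inr ⟨h7, h9⟩
    · exact Or.inl (Or.inr ⟨hv.1, h7⟩)
  have h2 : (X' \ Dset R ε X' a X' e q₀).card ≤ 2 * a * q₀ := by
    have := Dset_loss' hT (ε := ε) ha1 (e := e) (Subset.refl X') 0 q₀
    rw [Nat.zero_add] at this
    exact this
  have h3 : 2 * a * q₀ ≤ 40 * a := by nlinarith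
  have h4 := (card_le_card h1).trans ((card_union_le _ _).trans (Nat.add_le_add_right (card_union_le _ _) _))
  have h5 := hcore.big
  omega

/-- the vertices of small degree -/
theorem card_lowDg (hT : AE32.Tour R) (X : Finset V) (k : ℕ) :
    (X.filter (fun u => ¬ Dg R k X u)).card ≤ 4 * k + 2 := by
  have h1 : X.filter (fun u => ¬ Dg R k X u) ⊆
      X.filter (fun v => (nO R X v).card ≤ k) ∪ X.filter (fun v => (nI R X v).card ≤ k) := by
    intro u hu
    rw [mem_filter] at hu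
    rw [mem_union, mem_filter, mem_filter]
    by_contra h2
    rw [not_or] at h2
    apply hu.2
    constructor
    · by_contra h3
      exact h2.1 ⟨hu.1, by omega⟩
    · by_contra h3
      exact h2.2 ⟨hu.1, by omega⟩
  have h2 := card_low hT X k
  have h3 := card_low_in hT X k
  have h4 := (card_le_card h1).trans (card_union_le _ _)
  omega

theorem Dg.mono {K K' : ℕ} {X : Finset V} {v : V} (h : Dg R K' X v) (hK : K ≤ K') : Dg R K X v :=
  ⟨hK.trans h.1, hK.trans h.2⟩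

/-- **A block**: a walk of bounded length to a fresh super vertex -/
theorem block_step (hT : AE32.Tour R) {ε : ℕ → Bool} {Pd : ℕ → V → Finset V → Prop} {sz : ℕ → ℕ}
    {s K M Q c₁ c N : ℕ} (hc : Cst s K M Q c₁ c N) (hP : Pen R Pd sz s K)
    {d i q₀ r : ℕ} {x : V} {X H : Finset V} (hS : Sup (rr R (ε i)) c c₁ s (2 * Q) X x H)
    (hr : r + 1 ≤ q₀) (hq₀ : q₀ ≤ 20) (hε : ε (i + 1 + q₀ - (r + 1)) = ε i)
    (hεj : ε (i + 1 + q₀) ≠ ε (i + 1 + q₀ + 1)) (hC : rm sz (d + 1 + q₀ + 1) i + N ≤ X.card)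
    (IH : ∀ (X' : Finset V) (x' : V) (H' : Finset V), Sup (rr R (ε (i + 1 + q₀ + 1))) c c₁ s (2 * Q) X' x' H' →
      rm sz d (i + 1 + q₀ + 1) + N ≤ X'.card → Go R ε Pd d (i + 1 + q₀ + 1) x' X') :
    Go R ε Pd (d + 1 + q₀ + 1) i x X := by
  obtain ⟨hM, hQ, hc₁, hcc, hN⟩ := hc
  have hHX : H ⊆ X := hS.sub.trans nO_sub
  have hHc := hS.cardH
  have hcore := hS.coreSelf
  have hdgx : Dg R (K + H.card) X x := by
    rw [← dg_rr (ε i)]
    exact ⟨by have := hcore.degO; omega, by have := hcore.degI; omega⟩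
  refine go_step' hP (Rsv := H) (C := N) hdgx hC ?_
  intro U hU hUc
  have hUX : U ⊆ X := hU.trans sdiff_subset
  have hsz := hP.sz_le i
  have hHX1 : H ⊆ X \ U := by
    intro u hu
    exact mem_sdiff.2 ⟨hHX hu, fun h => (mem_sdiff.1 (hU h)).2 hu⟩
  have hX1c : (X \ U).card + U.card = X.card := card_sdiff_add_card_eq_card hUX
  have hrm : rm sz (d + 1 + q₀ + 1) i = sz i + 1 + rm sz (d + 1 + q₀) (i + 1) := rfl
  have hcore1 : Core (rr R (ε i)) c c₁ (X \ U) x :=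
    hS.core _ sdiff_subset hHX1 (card_sdiff_sdiff_le (by omega))
  obtain ⟨X₁, hX₁⟩ : ∃ X₁, X₁ = X \ U := ⟨_, rfl⟩
  rw [← hX₁] at hcore1 hX1c ⊢
  obtain ⟨e, he⟩ : ∃ e, e = i + 1 + q₀ := ⟨_, rfl⟩
  rw [← he] at hε hεj IH
  obtain ⟨z, hz, H', hS', -⟩ := exists_sup (tour_rr hT (ε (e + 1))) c₁ Q X₁ (by omega)
  rw [← hcc] at hS'
  have hH'sub : H' ⊆ X₁.erase z := hS'.sub.trans nO_sub
  have hzH' : z ∉ H' := fun h2 => (mem_erase.1 (hH'sub h2)).1 rfl
  have hH'c := hS'.cardH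
  obtain ⟨Rsv, hRsv⟩ : ∃ Rsv, Rsv = insert z H' := ⟨_, rfl⟩
  have hRc : Rsv.card ≤ 2 * Q + 1 := by
    rw [hRsv]
    exact (card_insert_le _ _).trans (by omega)
  have hRX : Rsv ⊆ X₁ := by
    rw [hRsv]
    exact insert_subset hz (hH'sub.trans (erase_subset _ _))
  obtain ⟨X', hX'⟩ : ∃ X', X' = (X₁ \ Rsv).filter (fun u => Dg R (K + Rsv.card + M) X₁ u) := ⟨_, rfl⟩
  have hX'X : X' ⊆ X₁ := by
    rw [hX']
    exact (filter_subset _ _).trans sdiff_subset
  have hX'R : ∀ u ∈ X', u ∉ Rsv := by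
    intro u hu
    rw [hX', mem_filter, mem_sdiff] at hu
    exact hu.1.2
  have hX'D : ∀ u ∈ X', Dg R (K + Rsv.card + M) X₁ u := by
    intro u hu
    rw [hX', mem_filter] at hu
    exact hu.2
  have hw0 : (X₁ \ X').card ≤ (2 * Q + 1) + (4 * (K + (2 * Q + 1) + M) + 2) := by
    have h1 : X₁ \ X' ⊆ Rsv ∪ X₁.filter (fun u => ¬ Dg R (K + Rsv.card + M) X₁ u) := by
      intro u hu
      rw [mem_sdiff, hX', mem_filter, mem_sdiff] at hu
      rw [mem_union, mem_filter]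
      by_cases h2 : u ∈ Rsv
      · exact Or.inl h2
      · exact Or.inr ⟨hu.1, fun h3 => hu.2 ⟨⟨hu.1, h2⟩, h3⟩⟩
    have h2 := (card_le_card h1).trans (card_union_le _ _)
    have h3 := card_lowDg hT X₁ (K + Rsv.card + M)
    omega
  obtain ⟨w, hwd⟩ : ∃ w, w = (X₁ \ X').card + 1 := ⟨_, rfl⟩
  obtain ⟨D₀, hD₀⟩ : ∃ D₀, D₀ = nO (rr R (ε (e + 1))) X' z := ⟨_, rfl⟩
  have hD₀X : D₀ ⊆ X' := by
    rw [hD₀]
    exact nO_sub
  have hD₀c : 2 * X₁.card ≤ 5 * (D₀.card + w) := by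
    have h1 := hS'.coreSelf.big
    have h2 : (nO (rr R (ε (e + 1))) (X₁.erase z) z) ⊆ D₀ ∪ (X₁ \ X') := by
      intro u hu
      rw [mem_nO, mem_erase] at hu
      rw [mem_union, hD₀, mem_nO, mem_sdiff]
      by_cases h3 : u ∈ X'
      · exact Or.inl ⟨h3, hu.2⟩
      · exact Or.inr ⟨hu.1.2, h3⟩
    have h3 := (card_le_card h2).trans (card_union_le _ _)
    have h4 : (X₁.erase z).card + 1 = X₁.card := card_erase_add_one hz
    omega
  obtain ⟨a, ha⟩ : ∃ a, a = X₁.card / 20000 := ⟨_, rfl⟩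
  have ha1 : M + 1 ≤ a := by omega
  have hst := start_cov hT hcore1 hX'X hD₀X (a := a) (w := w) (by omega) hD₀c (ε := ε) (e := e) hr hq₀ hε
    (by omega) (by omega) (by omega)
  obtain ⟨h', hh'⟩ : (nO (rr R (ε i)) (Dset R ε X' a D₀ e q₀) x).Nonempty := by
    rw [← card_pos]
    omega
  rw [mem_nO] at hh'
  have hh'X : h' ∈ X' := Dset_sub hD₀X _ hh'.1
  refine ⟨h', hX'X hh'X, hh'.2, ?_⟩
  intro hC1
  have hei : e - q₀ = i + 1 := by omega
  have hgo := walk (C := N) (d := d + 1) (e := e) (M := M) hP hX'X hX'R hX'D hD₀X (by omega) ?_ q₀ (by omega) h' hh'.1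
    (X₁.erase h') (erase_subset _ _) (by simp) ?_ ?_ ?_
  · rw [hei] at hgo
    exact hgo
  · -- the last step of the block
    intro h hh Y hY hhY hRY hYM hYC
    rw [hD₀, mem_nO] at hh
    refine go_step' hP (Rsv := Rsv) (C := N) ((hX'D h hh.1).sub hYM) hYC ?_
    intro U₂ hU₂ hU₂c
    have hsz2 := hP.sz_le e
    have hzR : z ∈ Rsv := by
      rw [hRsv]
      exact mem_insert_self _ _
    have hzU : z ∉ U₂ := fun h2 => (mem_sdiff.1 (hU₂ h2)).2 hzR
    refine ⟨z, mem_sdiff.2 ⟨hRY hzR, hzU⟩, ?_, ?_⟩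
    · have hb : ε e = !ε (e + 1) := by
        cases h3 : ε e <;> cases h4 : ε (e + 1) <;> simp_all
      rw [hb, rr_not]
      exact hh.2
    · intro h2
      refine IH _ z H' (hS'.shrink ?_ ?_ ?_) h2
      · intro u hu
        rw [mem_erase, mem_sdiff] at hu
        exact mem_erase.2 ⟨hu.1, hY hu.2.1⟩
      · intro u hu
        rw [mem_erase, mem_sdiff]
        have hu2 : u ∈ Rsv := by
          rw [hRsv]
          exact mem_insert_of_mem hu
        exact ⟨fun e => hzH' (e ▸ hu), hRY hu2, fun h4 => (mem_sdiff.1 (hU₂ h4)).2 hu2⟩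
      · have h3 : X₁.erase z \ ((Y \ U₂).erase z) ⊆ (X₁ \ Y) ∪ U₂ := by
          intro u hu
          simp only [mem_sdiff, mem_erase] at hu
          rw [mem_union, mem_sdiff]
          by_contra h4
          rw [not_or] at h4
          apply hu.2
          refine ⟨hu.1.1, ?_, h4.2⟩
          by_contra h5
          exact h4.1 ⟨hu.1.2, h5⟩
        have h4 := (card_le_card h3).trans (card_union_le _ _)
        omega
  · intro u hu
    exact mem_erase.2 ⟨fun e => hX'R h' hh'X (e ▸ hu), hRX hu⟩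
  · have h1 : (X₁ \ X₁.erase h').card ≤ 1 := by
      have h3 : X₁ \ X₁.erase h' ⊆ {h'} := by
        intro u hu
        rw [mem_sdiff, mem_erase] at hu
        rw [mem_singleton]
        by_contra h4
        exact hu.2 ⟨h4, hu.1⟩
      simpa using card_le_card h3
    have h2 : q₀ * (s + 1) ≤ 20 * (s + 1) := Nat.mul_le_mul_right _ hq₀
    omega
  · rw [hei]
    exact hC1

/-- **The last steps** -/
theorem final_step (hT : AE32.Tour R) {ε : ℕ → Bool} {Pd : ℕ → V → Finset V → Prop} {sz : ℕ → ℕ}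
    {s K M Q c₁ c N : ℕ} (hc : Cst s K M Q c₁ c N) (hP : Pen R Pd sz s K)
    {d i : ℕ} {x : V} {X H : Finset V} (hS : Sup (rr R (ε i)) c c₁ s (2 * Q) X x H)
    (hd : d ≤ 21) (hC : rm sz d i + N ≤ X.card) :
    Go R ε Pd d i x X := by
  obtain ⟨hM, hQ, hc₁, hcc, hN⟩ := hc
  have hHX : H ⊆ X := hS.sub.trans nO_sub
  have hHc := hS.cardH
  have hcore := hS.coreSelf
  have hdgx : Dg R (K + H.card) X x := by
    rw [← dg_rr (ε i)]
    exact ⟨by have := hcore.degO; omega, by have := hcore.degI; omega⟩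
  rcases Nat.eq_zero_or_pos d with hd0 | hd0
  · subst hd0
    obtain ⟨U, hU, _, hU2⟩ := hP.pen i x X (hdgx.mono (by omega))
    exact ⟨U, hU, hU2⟩
  obtain ⟨q₀, rfl⟩ : ∃ q₀, d = 0 + q₀ + 1 := ⟨d - 1, by omega⟩
  refine go_step' hP (Rsv := H) (C := N) hdgx hC ?_
  intro U hU hUc
  have hUX : U ⊆ X := hU.trans sdiff_subset
  have hsz := hP.sz_le i
  have hHX1 : H ⊆ X \ U := by
    intro u hu
    exact mem_sdiff.2 ⟨hHX hu, fun h => (mem_sdiff.1 (hU h)).2 hu⟩
  have hX1c : (X \ U).card + U.card = X.card := card_sdiff_add_card_eq_card hUX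
  have hrm : rm sz (0 + q₀ + 1) i = sz i + 1 + rm sz (0 + q₀) (i + 1) := rfl
  have hcore1 : Core (rr R (ε i)) c c₁ (X \ U) x :=
    hS.core _ sdiff_subset hHX1 (card_sdiff_sdiff_le (by omega))
  obtain ⟨X₁, hX₁⟩ : ∃ X₁, X₁ = X \ U := ⟨_, rfl⟩
  rw [← hX₁] at hcore1 hX1c ⊢
  obtain ⟨e, he⟩ : ∃ e, e = i + 1 + q₀ := ⟨_, rfl⟩
  obtain ⟨X', hX'⟩ : ∃ X', X' = X₁.filter (fun u => Dg R (K + (∅ : Finset V).card + M) X₁ u) := ⟨_, rfl⟩
  have hX'X : X' ⊆ X₁ := by
    rw [hX']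
    exact filter_subset _ _
  have hX'D : ∀ u ∈ X', Dg R (K + (∅ : Finset V).card + M) X₁ u := by
    intro u hu
    rw [hX', mem_filter] at hu
    exact hu.2
  have hw0 : (X₁ \ X').card ≤ 4 * (K + M) + 2 := by
    have h1 : X₁ \ X' ⊆ X₁.filter (fun u => ¬ Dg R (K + M) X₁ u) := by
      intro u hu
      rw [mem_sdiff, hX', mem_filter, card_empty] at hu
      rw [mem_filter]
      exact ⟨hu.1, fun h3 => hu.2 ⟨hu.1, h3⟩⟩
    exact (card_le_card h1).trans (card_lowDg hT X₁ (K + M))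
  obtain ⟨a, ha⟩ : ∃ a, a = X₁.card / 20000 := ⟨_, rfl⟩
  have ha1 : M + 1 ≤ a := by omega
  have hst := start_big hT hcore1 (X' := X') (a := a) (w := 4 * (K + M) + 2) hw0 (ε := ε) (e := e) (q₀ := q₀)
    (by omega) (by omega) (by omega) (by omega)
  obtain ⟨h', hh'⟩ : (nO (rr R (ε i)) (Dset R ε X' a X' e q₀) x).Nonempty := by
    rw [← card_pos]
    omega
  rw [mem_nO] at hh'
  have hh'X : h' ∈ X' := Dset_sub (Subset.refl _) _ hh'.1
  refine ⟨h', hX'X hh'X, hh'.2, ?_⟩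
  intro hC1
  have hei : e - q₀ = i + 1 := by omega
  have hgo := walk (C := N) (d := 0) (e := e) (M := M) (Rsv := ∅) hP hX'X (by simp) hX'D (Subset.refl _) (by omega) ?_
    q₀ (by omega) h' hh'.1 (X₁.erase h') (erase_subset _ _) (by simp) (empty_subset _) ?_ ?_
  · rw [hei] at hgo
    exact hgo
  · intro h hh Y hY hhY _ hYM hYC
    have h1 : Dg R K Y h := by
      have h2 := hX'D h hh
      rw [card_empty, Nat.add_zero] at h2
      exact h2.sub hYM
    obtain ⟨U, hU, _, hU2⟩ := hP.pen e h Y h1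
    exact ⟨U, hU, hU2⟩
  · have h1 : (X₁ \ X₁.erase h').card ≤ 1 := by
      have h3 : X₁ \ X₁.erase h' ⊆ {h'} := by
        intro u hu
        rw [mem_sdiff, mem_erase] at hu
        rw [mem_singleton]
        by_contra h4
        exact hu.2 ⟨h4, hu.1⟩
      simpa using card_le_card h3
    have h2 : q₀ * (s + 1) ≤ 20 * (s + 1) := Nat.mul_le_mul_right _ (by omega)
    omega
  · rw [hei]
    exact hC1

end AECat
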