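import Pool.Agent.AE15.Super

/-!
# Super vertices with a reserved set of constant size

`x` has maximal out-degree inside the set `G` of the vertices of in- and out-degree at least `c`.
-/

set_option autoImplicit false

namespace AECat

open Finset AE15
open scoped Classical

variable {V : Type*} {R : V → V → Prop}

/-- the properties of `x` used below -/
structure Core (R : V → V → Prop) (c c₁ : ℕ) (X : Finset V) (x : V) : Prop where
  degO : c₁ ≤ (nO R X x).card
  degI : c₁ ≤ (nI R X x).card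
  run : ∀ u ∈ X, ¬ R x u → c ≤ (nI R X u).card →
    ∃ v ∈ X, R x v ∧ R v u ∧ c₁ ≤ (nO R X v).card ∧ c₁ ≤ (nI R X v).card
  cov : 4 * (X.filter (fun u => 25 * (nI R (nO R X x) u).card < X.card)).card ≤ X.card
  big : 2 * X.card ≤ 5 * (nO R X x).card

/-- `x` has the properties `Core` after the removal of at most `Q` vertices outside the reserved set `H` -/
structure Sup (R : V → V → Prop) (c c₁ Q h₀ : ℕ) (X : Finset V) (x : V) (H : Finset V) : Prop where
  notMem : x ∉ X
  sub : H ⊆ nO R X x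
  cardH : H.card ≤ h₀
  core : ∀ X' ⊆ X, H ⊆ X' → (X \ X').card ≤ Q → Core R c c₁ X' x

theorem Sup.shrink {c c₁ Q Q' h₀ : ℕ} {X X' H : Finset V} {x : V} (h : Sup R c c₁ Q h₀ X x H) (hX : X' ⊆ X)
    (hH : H ⊆ X') (hQ : (X \ X').card + Q' ≤ Q) : Sup R c c₁ Q' h₀ X' x H := by
  refine ⟨fun hx => h.notMem (hX hx), ?_, h.cardH, ?_⟩
  · intro u hu
    exact mem_nO.2 ⟨hH hu, (mem_nO.1 (h.sub hu)).2⟩
  · intro X'' hX'' hH'' hc
    refine h.core X'' (hX''.trans hX) hH'' ?_
    have h1 : X \ X'' ⊆ (X \ X') ∪ (X' \ X'') := by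
      intro u hu
      rw [mem_sdiff] at hu
      rw [mem_union, mem_sdiff, mem_sdiff]
      by_cases h2 : u ∈ X'
      · exact Or.inr ⟨h2, hu.2⟩
      · exact Or.inl ⟨hu.1, h2⟩
    have h2 := (card_le_card h1).trans (card_union_le _ _)
    omega

theorem Sup.coreSelf {c c₁ Q h₀ : ℕ} {X H : Finset V} {x : V} (h : Sup R c c₁ Q h₀ X x H) : Core R c c₁ X x :=
  h.core X (Subset.refl _) (h.sub.trans nO_sub) (by simp)

theorem tour_flip (hT : AE32.Tour R) : AE32.Tour (fun a b => R b a) :=
  ⟨fun a => hT.irr a, fun a b h => hT.tot b a (Ne.symm h), fun a b h => hT.asym b a h⟩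

/-- few vertices of a tournament have small in-degree -/
theorem card_low_in (hT : AE32.Tour R) (A : Finset V) (j : ℕ) :
    (A.filter (fun v => (nI R A v).card ≤ j)).card ≤ 2 * j + 1 :=
  card_low (tour_flip hT) A j

theorem card_nO_le_add {X X' : Finset V} (v : V) {q : ℕ} (h : (X \ X').card ≤ q) :
    (nO R X v).card ≤ (nO R X' v).card + q := by
  have h1 : nO R X v ⊆ nO R X' v ∪ (X \ X') := by
    intro u hu
    rw [mem_nO] at hu
    rw [mem_union, mem_nO, mem_sdiff]
    by_cases h2 : u ∈ X'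
    · exact Or.inl ⟨h2, hu.2⟩
    · exact Or.inr ⟨hu.1, h2⟩
  have h2 := (card_le_card h1).trans (card_union_le _ _)
  omega

theorem card_nI_le_add {X X' : Finset V} (v : V) {q : ℕ} (h : (X \ X').card ≤ q) :
    (nI R X v).card ≤ (nI R X' v).card + q := by
  have h1 : nI R X v ⊆ nI R X' v ∪ (X \ X') := by
    intro u hu
    rw [mem_nI] at hu
    rw [mem_union, mem_nI, mem_sdiff]
    by_cases h2 : u ∈ X'
    · exact Or.inl ⟨h2, hu.2⟩
    · exact Or.inr ⟨hu.1, h2⟩
  have h2 := (card_le_card h1).trans (card_union_le _ _)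
  omega

/-- **Existence of super vertices** -/
theorem exists_sup (hT : AE32.Tour R) (c₁ Q : ℕ) (X : Finset V) (hX : 1000 * (c₁ + Q + 1) ≤ X.card) :
    ∃ x ∈ X, ∃ H, Sup R (c₁ + Q + 1) c₁ Q (2 * Q) (X.erase x) x H ∧ c₁ + Q + 1 ≤ (nI R X x).card := by
  obtain ⟨c, hc⟩ : ∃ c, c = c₁ + Q + 1 := ⟨_, rfl⟩
  rw [← hc] at hX ⊢
  set n := X.card with hn
  set G := X.filter (fun g => c ≤ (nO R X g).card ∧ c ≤ (nI R X g).card) with hG
  have hGX : G ⊆ X := filter_subset _ _
  have hXG : (X \ G).card ≤ 4 * c := by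
    have h1 : X \ G ⊆ X.filter (fun v => (nO R X v).card ≤ c - 1) ∪ X.filter (fun v => (nI R X v).card ≤ c - 1) := by
      intro u hu
      rw [mem_sdiff, hG, mem_filter] at hu
      rw [mem_union, mem_filter, mem_filter]
      by_cases h2 : c ≤ (nO R X u).card
      · have h3 : ¬ c ≤ (nI R X u).card := fun h3 => hu.2 ⟨hu.1, h2, h3⟩
        exact Or.inr ⟨hu.1, by omega⟩
      · exact Or.inl ⟨hu.1, by omega⟩
    have h2 := card_low hT X (c - 1)
    have h3 := card_low_in hT X (c - 1)
    have h4 := (card_le_card h1).trans (card_union_le _ _)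
    omega
  have hGc : n ≤ G.card + 4 * c := by
    have := card_sdiff_add_card_eq_card hGX
    omega
  have hGne : G.Nonempty := by
    rw [← card_pos]
    omega
  obtain ⟨x, hx, h1, h2, h3⟩ := super_vertex hT (X := X.filter (fun u => c ≤ (nI R X u).card)) hGne (m := c) (by
    intro u hu huG
    rw [mem_filter] at hu
    have h4 : ¬ c ≤ (nO R X u).card := by
      intro h5
      exact huG (mem_filter.2 ⟨hu.1, h5, hu.2⟩)
    have h5 : (nO R G u).card ≤ (nO R X u).card := card_le_card (nO_mono hGX)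
    omega)
  have hxX : x ∈ X := hGX hx
  -- vertices with few dominators
  have hB : ∀ j, ((nI R G x).filter (fun u => (nI R (nO R G x) u).card ≤ j)).card ≤ 2 * j := by
    intro j
    have h4 : (nI R G x).filter (fun u => (nI R (nO R G x) u).card ≤ j) ⊆
        (nI R G x).filter (fun u => (nO R (nI R G x) u).card + 1 ≤ j) := by
      intro u hu
      rw [mem_filter] at hu ⊢
      have h5 := h1 u (nI_sub hu.1) (mem_nI.1 hu.1).2
      exact ⟨hu.1, by omega⟩
    refine (card_le_card h4).trans ?_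
    rcases Nat.eq_zero_or_pos j with hj | hj
    · subst hj
      rw [Nat.mul_zero, Nat.le_zero, card_eq_zero, filter_eq_empty_iff]
      intro u _
      omega
    · have h5 := card_low hT (nI R G x) (j - 1)
      have h6 : (nI R G x).filter (fun u => (nO R (nI R G x) u).card + 1 ≤ j) =
          (nI R G x).filter (fun u => (nO R (nI R G x) u).card ≤ j - 1) := by
        apply filter_congr
        intro u _
        omega
      rw [h6]
      omega
  set B := (nI R G x).filter (fun u => (nI R (nO R G x) u).card ≤ Q) with hBd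
  have hdom : ∀ u ∈ B, ∃ h, h ∈ nI R (nO R G x) u := by
    intro u hu
    rw [hBd, mem_filter] at hu
    have h4 := h1 u (nI_sub hu.1) (mem_nI.1 hu.1).2
    have h5 : 0 < (nI R (nO R G x) u).card := by omega
    exact card_pos.1 h5
  choose! f hf using hdom
  refine ⟨x, hxX, B.image f, ⟨by simp, ?_, card_image_le.trans (hB Q), ?_⟩, (mem_filter.1 hx).2.2⟩
  · intro v hv
    obtain ⟨u, hu, rfl⟩ := mem_image.1 hv
    have h4 := mem_nO.1 (nI_sub (hf u hu))
    exact mem_nO.2 ⟨mem_erase.2 ⟨fun e => hT.irr x (by rw [e] at h4; exact h4.2), hGX h4.1⟩, h4.2⟩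
  intro X' hX' hH hXX
  have hxX' : x ∉ X' := fun h => (mem_erase.1 (hX' h)).1 rfl
  have hX'X : X' ⊆ X := hX'.trans (erase_subset _ _)
  have hXX' : (X \ X').card ≤ Q + 1 := by
    have h4 : X \ X' ⊆ insert x (X.erase x \ X') := by
      intro u hu
      rw [mem_sdiff] at hu
      rw [mem_insert, mem_sdiff, mem_erase]
      by_cases h5 : u = x
      · exact Or.inl h5
      · exact Or.inr ⟨⟨h5, hu.1⟩, hu.2⟩
    have h5 := (card_le_card h4).trans (card_insert_le _ _)
    omega
  have hX'c : n ≤ X'.card + Q + 1 := by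
    have := card_sdiff_add_card_eq_card hX'X
    omega
  have hX'n : X'.card ≤ n := card_le_card hX'X
  have hdeg : ∀ v ∈ G, c₁ ≤ (nO R X' v).card ∧ c₁ ≤ (nI R X' v).card := by
    intro v hv
    rw [hG, mem_filter] at hv
    have h4 := card_nO_le_add (R := R) v hXX'
    have h5 := card_nI_le_add (R := R) v hXX'
    omega
  have hnOG : (nO R G x).card ≤ (nO R X' x).card + Q := by
    have h4 : nO R G x ⊆ nO R X' x ∪ (X.erase x \ X') := by
      intro u hu
      rw [mem_nO] at hu
      rw [mem_union, mem_nO, mem_sdiff, mem_erase]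
      by_cases h5 : u ∈ X'
      · exact Or.inl ⟨h5, hu.2⟩
      · exact Or.inr ⟨⟨fun e => hT.irr x (by rw [e] at hu; exact hu.2), hGX hu.1⟩, h5⟩
    have h5 := (card_le_card h4).trans (card_union_le _ _)
    omega
  have hD : ∀ u, (nI R (nO R G x) u).card ≤ (nI R (nO R X' x) u).card + Q := by
    intro u
    have h4 : nI R (nO R G x) u ⊆ nI R (nO R X' x) u ∪ (X.erase x \ X') := by
      intro w hw
      rw [mem_nI, mem_nO] at hw
      rw [mem_union, mem_nI, mem_nO, mem_sdiff, mem_erase]
      by_cases h5 : w ∈ X'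
      · exact Or.inl ⟨⟨h5, hw.1.2⟩, hw.2⟩
      · exact Or.inr ⟨⟨fun e => hT.irr x (by rw [e] at hw; exact hw.1.2), hGX hw.1.1⟩, h5⟩
    have h5 := (card_le_card h4).trans (card_union_le _ _)
    omega
  refine ⟨(hdeg x hx).1, (hdeg x hx).2, ?_, ?_, ?_⟩
  · intro u hu hxu hcu
    have hux : R u x := by
      rcases hT.tot u x (fun e => hxX' (e ▸ hu)) with h4 | h4
      · exact h4
      · exact absurd h4 hxu
    have huX : u ∈ X := hX'X hu
    have hcu' : c ≤ (nI R X u).card := hcu.trans (card_le_card (nI_mono hX'X))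
    have key : ∃ v ∈ X', v ∈ nI R (nO R G x) u := by
      by_cases huB : u ∈ B
      · exact ⟨f u, hH (mem_image_of_mem f huB), hf u huB⟩
      · have h4 : Q < (nI R (nO R G x) u).card := by
          by_cases huG : u ∈ G
          · by_contra hc2
            exact huB (mem_filter.2 ⟨mem_nI.2 ⟨huG, hux⟩, by omega⟩)
          · have h5 := h2 u (mem_filter.2 ⟨huX, hcu'⟩) huG
            omega
        by_contra hc2
        push Not at hc2
        have h5 : nI R (nO R G x) u ⊆ X.erase x \ X' := by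
          intro w hw
          rw [mem_sdiff, mem_erase]
          have h6 := mem_nO.1 (nI_sub hw)
          exact ⟨⟨fun e => hT.irr x (by rw [e] at h6; exact h6.2), hGX h6.1⟩, fun h7 => hc2 w h7 hw⟩
        have := card_le_card h5
        omega
    obtain ⟨v, hv, hvd⟩ := key
    rw [mem_nI, mem_nO] at hvd
    exact ⟨v, hv, hvd.1.2, hvd.2, (hdeg v hvd.1.1).1, (hdeg v hvd.1.1).2⟩
  · set Z := X'.filter (fun u => 25 * (nI R (nO R X' x) u).card < X'.card) with hZ
    obtain ⟨J, hJ⟩ : ∃ J, J = n / 25 + Q := ⟨_, rfl⟩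
    have h4 : Z ⊆ (nI R G x).filter (fun u => (nI R (nO R G x) u).card ≤ J) ∪
        (nO R G x).filter (fun u => (nI R (nO R G x) u).card ≤ J) ∪ (X \ G) := by
      intro u hu
      rw [hZ, mem_filter] at hu
      have h5 : (nI R (nO R G x) u).card ≤ J := by
        have := hD u
        omega
      rw [mem_union, mem_union, mem_filter, mem_filter, mem_sdiff, mem_nI, mem_nO]
      by_cases huG : u ∈ G
      · rcases hT.tot u x (fun e => hxX' (e ▸ hu.1)) with h6 | h6
        · exact Or.inl (Or.inl ⟨⟨huG, h6⟩, h5⟩)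
        · exact Or.inl (Or.inr ⟨⟨huG, h6⟩, h5⟩)
      · exact Or.inr ⟨hX'X hu.1, huG⟩
    have h5 := hB J
    have h6 := card_low_in hT (nO R G x) J
    have h7 := (card_le_card h4).trans ((card_union_le _ _).trans (Nat.add_le_add_right (card_union_le _ _) _))
    omega
  · omega

end AECat
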