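import Pool.Agent.AECat.Super

/-!
# Walks with prescribed orientations

`Go R ε Pd d i h X`: the spine vertices `i, ..., i + d` with their pendants can be placed, the vertex `i` at `h`, all
the other vertices inside `X`.
-/

set_option autoImplicit false

namespace AECat

open Finset AE15
open scoped Classical

variable {V : Type*} {R : V → V → Prop}

/-- `R` or the reversed relation -/
def rr (R : V → V → Prop) : Bool → V → V → Prop
  | true => R
  | false => fun a b => R b a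

theorem rr_not (b : Bool) (x y : V) : rr R (!b) x y ↔ rr R b y x := by cases b <;> rfl

theorem tour_rr (hT : AE32.Tour R) (b : Bool) : AE32.Tour (rr R b) := by
  cases b
  · exact tour_flip hT
  · exact hT

theorem nI_rr (b : Bool) (X : Finset V) (v : V) : nI (rr R b) X v = nO (rr R (!b)) X v := by cases b <;> rfl

theorem nO_rr_not (b : Bool) (X : Finset V) (v : V) : nO (rr R (!b)) X v = nI (rr R b) X v := by cases b <;> rfl

/-- the two degrees of `v` in `X` are at least `K` -/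
def Dg (R : V → V → Prop) (K : ℕ) (X : Finset V) (v : V) : Prop := K ≤ (nO R X v).card ∧ K ≤ (nI R X v).card

theorem dg_rr {K : ℕ} {X : Finset V} {v : V} (b : Bool) : Dg (rr R b) K X v ↔ Dg R K X v := by
  cases b
  · exact and_comm
  · exact Iff.rfl

theorem Dg.sub {K q : ℕ} {X X' : Finset V} {v : V} (h : Dg R (K + q) X v) (hX : (X \ X').card ≤ q) : Dg R K X' v := by
  have h1 := card_nO_le_add (R := R) v hX
  have h2 := card_nI_le_add (R := R) v hX
  have h3 := h.1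
  have h4 := h.2
  exact ⟨by omega, by omega⟩

/-- placing the spine from the vertex `i` on, `d` further spine vertices -/
def Go (R : V → V → Prop) (ε : ℕ → Bool) (Pd : ℕ → V → Finset V → Prop) : ℕ → ℕ → V → Finset V → Prop
  | 0, i, h, X => ∃ U ⊆ X, Pd i h U
  | d + 1, i, h, X => ∃ U ⊆ X, Pd i h U ∧ ∃ h' ∈ X \ U, rr R (ε i) h h' ∧ Go R ε Pd d (i + 1) h' ((X \ U).erase h')

/-- the number of vertices which remain to be placed when the spine vertex `i` has been placed -/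
def rm (sz : ℕ → ℕ) : ℕ → ℕ → ℕ
  | 0, i => sz i
  | d + 1, i => sz i + 1 + rm sz d (i + 1)

/-- pendants of bounded size which can be placed at every vertex of large in- and out-degree -/
structure Pen (R : V → V → Prop) (Pd : ℕ → V → Finset V → Prop) (sz : ℕ → ℕ) (s K : ℕ) : Prop where
  sz_le : ∀ i, sz i ≤ s
  pen : ∀ i h Y, Dg R K Y h → ∃ U ⊆ Y, U.card = sz i ∧ Pd i h U

/-- one step -/
theorem go_step {ε : ℕ → Bool} {Pd : ℕ → V → Finset V → Prop} {sz : ℕ → ℕ} {s K : ℕ} (hP : Pen R Pd sz s K)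
    {d i : ℕ} {h : V} {Y Rsv : Finset V} (hR : Rsv ⊆ Y) {C : ℕ} (hdg : Dg R (K + Rsv.card) Y h)
    (hC : rm sz (d + 1) i + C ≤ Y.card)
    (hnext : ∀ U ⊆ Y \ Rsv, U.card = sz i → ∃ h' ∈ Y \ U, h' ∉ Rsv ∧ rr R (ε i) h h' ∧
      ((Y \ (Y \ U).erase h').card ≤ s + 1 → rm sz d (i + 1) + C ≤ ((Y \ U).erase h').card → Rsv ⊆ (Y \ U).erase h' →
        Go R ε Pd d (i + 1) h' ((Y \ U).erase h'))) :
    Go R ε Pd (d + 1) i h Y := by
  have h1 : (Y \ (Y \ Rsv)).card ≤ Rsv.card := by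
    apply card_le_card
    intro u hu
    rw [mem_sdiff, mem_sdiff] at hu
    by_contra h2
    exact hu.2 ⟨hu.1, h2⟩
  obtain ⟨U, hU, hUc, hPd⟩ := hP.pen i h (Y \ Rsv) (hdg.sub h1)
  obtain ⟨h', hh', hhR, harc, hgo⟩ := hnext U hU hUc
  have hUY : U ⊆ Y := hU.trans sdiff_subset
  refine ⟨U, hUY, hPd, h', hh', harc, ?_⟩
  have hc1 : ((Y \ U).erase h').card + 1 = (Y \ U).card := card_erase_add_one hh'
  have hc2 : (Y \ U).card + U.card = Y.card := card_sdiff_add_card_eq_card hUY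
  have hc3 : (Y \ (Y \ U).erase h').card + ((Y \ U).erase h').card = Y.card :=
    card_sdiff_add_card_eq_card ((erase_subset _ _).trans sdiff_subset)
  have hsz := hP.sz_le i
  have hrm : rm sz (d + 1) i = sz i + 1 + rm sz d (i + 1) := rfl
  apply hgo
  · omega
  · omega
  · intro u hu
    rw [mem_erase, mem_sdiff]
    exact ⟨fun e => hhR (e ▸ hu), hR hu, fun h2 => (mem_sdiff.1 (hU h2)).2 hu⟩

/-- the sets from which the walk can be continued: `Dset q` is the set for the index `e - q` -/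
noncomputable def Dset (R : V → V → Prop) (ε : ℕ → Bool) (X' : Finset V) (a : ℕ) (D₀ : Finset V) (e : ℕ) :
    ℕ → Finset V
  | 0 => D₀
  | q + 1 => X'.filter (fun u => a ≤ (nO (rr R (ε (e - (q + 1)))) (Dset R ε X' a D₀ e q) u).card)

theorem Dset_sub {ε : ℕ → Bool} {X' : Finset V} {a : ℕ} {D₀ : Finset V} {e : ℕ} (h : D₀ ⊆ X') (q : ℕ) :
    Dset R ε X' a D₀ e q ⊆ X' := by
  cases q with
  | zero => exact h
  | succ q => exact filter_subset _ _

theorem Dset_loss (hT : AE32.Tour R) {ε : ℕ → Bool} {X' : Finset V} {a : ℕ} (ha : 1 ≤ a) {D₀ : Finset V} {e : ℕ}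
    (h : D₀ ⊆ X') (q : ℕ) : (Dset R ε X' a D₀ e q \ Dset R ε X' a D₀ e (q + 1)).card ≤ 2 * a := by
  have h1 := card_low (tour_rr hT (ε (e - (q + 1)))) (Dset R ε X' a D₀ e q) (a - 1)
  have h2 : Dset R ε X' a D₀ e q \ Dset R ε X' a D₀ e (q + 1) ⊆
      (Dset R ε X' a D₀ e q).filter (fun v => (nO (rr R (ε (e - (q + 1)))) (Dset R ε X' a D₀ e q) v).card ≤ a - 1) := by
    intro u hu
    rw [mem_sdiff] at hu
    rw [mem_filter]
    refine ⟨hu.1, ?_⟩
    by_contra h3
    apply hu.2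
    show u ∈ X'.filter _
    rw [mem_filter]
    exact ⟨Dset_sub h q hu.1, by omega⟩
  have h3 := card_le_card h2
  omega

theorem Dset_loss' (hT : AE32.Tour R) {ε : ℕ → Bool} {X' : Finset V} {a : ℕ} (ha : 1 ≤ a) {D₀ : Finset V} {e : ℕ}
    (h : D₀ ⊆ X') (p k : ℕ) : (Dset R ε X' a D₀ e p \ Dset R ε X' a D₀ e (p + k)).card ≤ 2 * a * k := by
  induction k with
  | zero => simp
  | succ k ih =>
    have h1 := Dset_loss hT (ε := ε) ha (e := e) h (p + k)
    have h2 : Dset R ε X' a D₀ e p \ Dset R ε X' a D₀ e (p + k + 1) ⊆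
        (Dset R ε X' a D₀ e p \ Dset R ε X' a D₀ e (p + k)) ∪
        (Dset R ε X' a D₀ e (p + k) \ Dset R ε X' a D₀ e (p + k + 1)) := by
      intro u hu
      rw [mem_sdiff] at hu
      rw [mem_union, mem_sdiff, mem_sdiff]
      by_cases h3 : u ∈ Dset R ε X' a D₀ e (p + k)
      · exact Or.inr ⟨h3, hu.2⟩
      · exact Or.inl ⟨hu.1, h3⟩
    have h3 := (card_le_card h2).trans (card_union_le _ _)
    have h4 : 2 * a * (k + 1) = 2 * a * k + 2 * a := by ring
    rw [← add_assoc]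
    omega

/-- **Walking** through the sets `Dset` -/
theorem walk {ε : ℕ → Bool} {Pd : ℕ → V → Finset V → Prop} {sz : ℕ → ℕ} {s K : ℕ} (hP : Pen R Pd sz s K)
    {X X' Rsv D₀ : Finset V} {a M C d e : ℕ} (hX' : X' ⊆ X) (hXR : ∀ u ∈ X', u ∉ Rsv)
    (hdg : ∀ u ∈ X', Dg R (K + Rsv.card + M) X u) (hD₀ : D₀ ⊆ X') (ha : M < a)
    (cont : ∀ h ∈ D₀, ∀ Y ⊆ X, h ∉ Y → Rsv ⊆ Y → (X \ Y).card ≤ M → rm sz d e + C ≤ Y.card → Go R ε Pd d e h Y)
    (q : ℕ) : q ≤ e → ∀ h ∈ Dset R ε X' a D₀ e q, ∀ Y ⊆ X, h ∉ Y → Rsv ⊆ Y → (X \ Y).card + q * (s + 1) ≤ M →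
      rm sz (d + q) (e - q) + C ≤ Y.card → Go R ε Pd (d + q) (e - q) h Y := by
  induction q with
  | zero =>
    intro _ h hh Y hY hhY hR hM hC
    exact cont h hh Y hY hhY hR (by omega) hC
  | succ q ih =>
    intro hq h hh Y hY hhY hR hM hC
    have hM' : (X \ Y).card + q * (s + 1) + (s + 1) ≤ M := by
      have : (q + 1) * (s + 1) = q * (s + 1) + (s + 1) := by ring
      omega
    have hhX' : h ∈ X' := Dset_sub hD₀ _ hh
    have hh2 : a ≤ (nO (rr R (ε (e - (q + 1)))) (Dset R ε X' a D₀ e q) h).card := (mem_filter.1 hh).2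
    have he : e - (q + 1) + 1 = e - q := by omega
    refine go_step hP hR (C := C) ((hdg h hhX').sub (by omega)) hC ?_
    intro U hU hUc
    have hUY : U ⊆ Y := hU.trans sdiff_subset
    have hsz := hP.sz_le (e - (q + 1))
    have h1 : 0 < (nO (rr R (ε (e - (q + 1)))) (Dset R ε X' a D₀ e q) h \ (X \ (Y \ U))).card := by
      have h2 := le_card_sdiff (X \ (Y \ U)) (nO (rr R (ε (e - (q + 1)))) (Dset R ε X' a D₀ e q) h)
      have h3 : (X \ (Y \ U)).card ≤ (X \ Y).card + U.card := by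
        have h4 : X \ (Y \ U) ⊆ (X \ Y) ∪ U := by
          intro u hu
          rw [mem_sdiff, mem_sdiff] at hu
          rw [mem_union, mem_sdiff]
          by_cases h5 : u ∈ U
          · exact Or.inr h5
          · exact Or.inl ⟨hu.1, fun h6 => hu.2 ⟨h6, h5⟩⟩
        exact (card_le_card h4).trans (card_union_le _ _)
      omega
    obtain ⟨h', hh'⟩ := card_pos.1 h1
    rw [mem_sdiff] at hh'
    obtain ⟨hh'1, hh'2⟩ := hh'
    rw [mem_nO] at hh'1
    have hh'X : h' ∈ X' := Dset_sub hD₀ _ hh'1.1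
    have hh'Y : h' ∈ Y \ U := by
      by_contra h2
      exact hh'2 (mem_sdiff.2 ⟨hX' hh'X, h2⟩)
    refine ⟨h', hh'Y, hXR h' hh'X, hh'1.2, ?_⟩
    intro h2 h3 h4
    rw [he] at h3 ⊢
    refine ih (by omega) h' hh'1.1 _ (((erase_subset _ _).trans sdiff_subset).trans hY) (by simp) h4 ?_ h3
    have h5 : X \ (Y \ U).erase h' ⊆ (X \ Y) ∪ (Y \ (Y \ U).erase h') := by
      intro u hu
      rw [mem_sdiff] at hu
      rw [mem_union, mem_sdiff, mem_sdiff]
      by_cases h6 : u ∈ Y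
      · exact Or.inr ⟨h6, hu.2⟩
      · exact Or.inl ⟨hu.1, h6⟩
    have h6 := (card_le_card h5).trans (card_union_le _ _)
    omega

end AECat
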